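import Mathlib

/-!
# Reflection in the unit circle and the pair inequality
-/

set_option autoImplicit false

namespace Pool.Agent.Y94.LL

open Complex

/-- a point of the closed unit disc with the same argument -/
noncomputable def hat (z : ℂ) : ℂ := if ‖z‖ ≤ 1 then z else ((starRingEnd ℂ) z)⁻¹

theorem norm_hat_le (z : ℂ) : ‖hat z‖ ≤ 1 := by
  unfold hat
  split_ifs with h
  · exact h
  · rw [norm_inv, RCLike.norm_conj]
    exact inv_le_one_of_one_le₀ (not_le.1 h).le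

theorem sq_identity (z w : ℂ) :
    ‖1 - z * (starRingEnd ℂ) w‖ ^ 2 - ‖z - w‖ ^ 2 = (1 - ‖z‖ ^ 2) * (1 - ‖w‖ ^ 2) := by
  simp only [Complex.sq_norm, Complex.normSq_apply, Complex.sub_re, Complex.sub_im,
    Complex.mul_re, Complex.mul_im, Complex.conj_re, Complex.conj_im, Complex.one_re,
    Complex.one_im]
  ring

theorem norm_sub_le_of (z w : ℂ) (h : 0 ≤ (1 - ‖z‖ ^ 2) * (1 - ‖w‖ ^ 2)) :
    ‖z - w‖ ≤ ‖1 - z * (starRingEnd ℂ) w‖ := by
  have h1 := sq_identity z w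
  nlinarith [norm_nonneg (z - w), norm_nonneg (1 - z * (starRingEnd ℂ) w)]

/-- (I1) -/
theorem pair_one (z w : ℂ) :
    ‖z - w‖ ≤ max 1 ‖z‖ * max 1 ‖w‖ * ‖1 - hat z * (starRingEnd ℂ) (hat w)‖ := by
  unfold hat
  split_ifs with hz hw hw
  · rw [max_eq_left hz, max_eq_left hw, one_mul, one_mul]
    apply norm_sub_le_of
    have h1 : ‖z‖ ^ 2 ≤ 1 := pow_le_one₀ (norm_nonneg _) hz
    have h2 : ‖w‖ ^ 2 ≤ 1 := pow_le_one₀ (norm_nonneg _) hw
    exact mul_nonneg (by linarith) (by linarith)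
  · have hw' := (not_le.1 hw).le
    have hw0 : w ≠ 0 := by
      intro h
      rw [h, norm_zero] at hw
      exact hw zero_le_one
    rw [max_eq_left hz, max_eq_right hw', one_mul, map_inv₀, Complex.conj_conj, ← norm_mul]
    have e : w * (1 - z * w⁻¹) = -(z - w) := by field_simp; ring
    rw [e, norm_neg]
  · have hz' := (not_le.1 hz).le
    have hz0 : z ≠ 0 := by
      intro h
      rw [h, norm_zero] at hz
      exact hz zero_le_one
    have hz1 : (starRingEnd ℂ) z ≠ 0 := by simpa using hz0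
    rw [max_eq_right hz', max_eq_left hw, mul_one]
    have e0 : ‖z‖ = ‖(starRingEnd ℂ) z‖ := (RCLike.norm_conj z).symm
    rw [e0, ← norm_mul]
    have e : (starRingEnd ℂ) z * (1 - ((starRingEnd ℂ) z)⁻¹ * (starRingEnd ℂ) w) =
        (starRingEnd ℂ) (z - w) := by
      rw [map_sub]
      field_simp
    rw [e, RCLike.norm_conj]
  · have hz' := (not_le.1 hz).le
    have hw' := (not_le.1 hw).le
    have hz0 : z ≠ 0 := by
      intro h
      rw [h, norm_zero] at hz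
      exact hz zero_le_one
    have hw0 : w ≠ 0 := by
      intro h
      rw [h, norm_zero] at hw
      exact hw zero_le_one
    have hz1 : (starRingEnd ℂ) z ≠ 0 := by simpa using hz0
    rw [max_eq_right hz', max_eq_right hw', map_inv₀, Complex.conj_conj]
    have e0 : ‖z‖ = ‖(starRingEnd ℂ) z‖ := (RCLike.norm_conj z).symm
    have e1 : ‖z‖ * ‖w‖ * ‖1 - ((starRingEnd ℂ) z)⁻¹ * w⁻¹‖ =
        ‖(starRingEnd ℂ) z * w * (1 - ((starRingEnd ℂ) z)⁻¹ * w⁻¹)‖ := by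
      rw [norm_mul, norm_mul, ← e0]
    rw [e1]
    have e : (starRingEnd ℂ) z * w * (1 - ((starRingEnd ℂ) z)⁻¹ * w⁻¹) =
        -(1 - w * (starRingEnd ℂ) z) := by
      field_simp
      ring
    rw [e, norm_neg, norm_sub_rev z w]
    apply norm_sub_le_of
    have h1 : 1 ≤ ‖z‖ ^ 2 := one_le_pow₀ hz'
    have h2 : 1 ≤ ‖w‖ ^ 2 := one_le_pow₀ hw'
    nlinarith

/-- (I2) -/
theorem pair_two {u : ℂ} (hu : ‖u‖ ≤ 1) {ρ : ℝ} (h0 : 0 ≤ ρ) (h1 : ρ ≤ 1) :
    ‖1 - u‖ ≤ 2 / (1 + ρ) * ‖1 - (ρ : ℂ) * u‖ := by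
  rw [div_mul_eq_mul_div, le_div_iff₀ (by linarith)]
  have hs : u.re * u.re + u.im * u.im ≤ 1 := by
    have h2 : ‖u‖ ^ 2 ≤ 1 := pow_le_one₀ (norm_nonneg _) hu
    rwa [Complex.sq_norm, Complex.normSq_apply] at h2
  have hx : -1 ≤ u.re := by nlinarith [mul_self_nonneg u.im]
  have e1 : ‖1 - u‖ ^ 2 = (1 - u.re) ^ 2 + u.im ^ 2 := by
    rw [Complex.sq_norm, Complex.normSq_apply]
    simp only [Complex.sub_re, Complex.sub_im, Complex.one_re, Complex.one_im]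
    ring
  have e2 : ‖1 - (ρ : ℂ) * u‖ ^ 2 = (1 - ρ * u.re) ^ 2 + (ρ * u.im) ^ 2 := by
    rw [Complex.sq_norm, Complex.normSq_apply]
    simp only [Complex.sub_re, Complex.sub_im, Complex.one_re, Complex.one_im, Complex.mul_re,
      Complex.mul_im, Complex.ofReal_re, Complex.ofReal_im]
    ring
  have key : (‖1 - u‖ * (1 + ρ)) ^ 2 ≤ (2 * ‖1 - (ρ : ℂ) * u‖) ^ 2 := by
    rw [mul_pow, mul_pow, e1, e2]
    have h3 : 0 ≤ (1 - ρ) * ((3 + ρ) + 2 * u.re * (1 - ρ) -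
        (u.re * u.re + u.im * u.im) * (3 * ρ + 1)) := by
      apply mul_nonneg (by linarith)
      nlinarith
    nlinarith
  exact le_of_sq_le_sq key (by positivity)

/-- the pair inequality -/
theorem pair_log {z w : ℂ} (hzw : z ≠ w) {ρ : ℝ} (h0 : 0 ≤ ρ) (h1 : ρ < 1) :
    Real.log ‖z - w‖ ≤ Real.log (max 1 ‖z‖) + Real.log (max 1 ‖w‖) + Real.log (2 / (1 + ρ)) +
      Real.log ‖1 - (ρ : ℂ) * (hat z * (starRingEnd ℂ) (hat w))‖ := by
  have hpos : 0 < ‖z - w‖ := norm_pos_iff.2 (sub_ne_zero.2 hzw)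
  have hu : ‖hat z * (starRingEnd ℂ) (hat w)‖ ≤ 1 := by
    rw [norm_mul, RCLike.norm_conj]
    exact mul_le_one₀ (norm_hat_le z) (norm_nonneg _) (norm_hat_le w)
  have h2 := pair_one z w
  have h3 := pair_two hu h0 h1.le
  have hz1 : (0 : ℝ) < max 1 ‖z‖ := lt_of_lt_of_le one_pos (le_max_left _ _)
  have hw1 : (0 : ℝ) < max 1 ‖w‖ := lt_of_lt_of_le one_pos (le_max_left _ _)
  have hr : (0 : ℝ) < 2 / (1 + ρ) := by positivity
  have h4 : ‖z - w‖ ≤ max 1 ‖z‖ * max 1 ‖w‖ *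
      (2 / (1 + ρ) * ‖1 - (ρ : ℂ) * (hat z * (starRingEnd ℂ) (hat w))‖) :=
    h2.trans (mul_le_mul_of_nonneg_left h3 (by positivity))
  have hN : 0 < ‖1 - (ρ : ℂ) * (hat z * (starRingEnd ℂ) (hat w))‖ := by
    by_contra hcon
    have hz : ‖1 - (ρ : ℂ) * (hat z * (starRingEnd ℂ) (hat w))‖ = 0 :=
      le_antisymm (not_lt.1 hcon) (norm_nonneg _)
    rw [hz] at h4
    simp only [mul_zero] at h4
    linarith
  have h5 := Real.log_le_log hpos h4
  rw [Real.log_mul (by positivity) (by positivity), Real.log_mul hz1.ne' hw1.ne',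
    Real.log_mul hr.ne' hN.ne'] at h5
  linarith

/-- the diagonal -/
theorem diag_log (z : ℂ) {ρ : ℝ} (h0 : 0 ≤ ρ) (h1 : ρ < 1) :
    0 ≤ Real.log (max 1 ‖z‖) + Real.log (max 1 ‖z‖) + Real.log (2 / (1 + ρ)) +
      Real.log ‖1 - (ρ : ℂ) * (hat z * (starRingEnd ℂ) (hat z))‖ + Real.log (1 / (1 - ρ)) := by
  have hz1 : 0 ≤ Real.log (max 1 ‖z‖) := Real.log_nonneg (le_max_left _ _)
  have hr : 0 ≤ Real.log (2 / (1 + ρ)) := Real.log_nonneg (by
    rw [le_div_iff₀ (by linarith)]; linarith)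
  have h2 : 1 - ρ ≤ ‖1 - (ρ : ℂ) * (hat z * (starRingEnd ℂ) (hat z))‖ := by
    have h3 : ‖(ρ : ℂ) * (hat z * (starRingEnd ℂ) (hat z))‖ ≤ ρ := by
      rw [norm_mul, norm_mul, RCLike.norm_conj, Complex.norm_real, Real.norm_eq_abs,
        abs_of_nonneg h0]
      have := mul_le_one₀ (norm_hat_le z) (norm_nonneg _) (norm_hat_le z)
      nlinarith
    have h4 := norm_sub_norm_le (1 : ℂ) ((ρ : ℂ) * (hat z * (starRingEnd ℂ) (hat z)))
    rw [norm_one] at h4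
    linarith
  have h3 : Real.log (1 - ρ) ≤ Real.log ‖1 - (ρ : ℂ) * (hat z * (starRingEnd ℂ) (hat z))‖ :=
    Real.log_le_log (by linarith) h2
  rw [one_div, Real.log_inv]
  linarith

end Pool.Agent.Y94.LL
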