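import Mathlib
import Pool.Agent.W401.SSS.P.RES
import Pool.Agent.Y94.LL.Hat

/-!
# The energy inequality for the conjugates of an algebraic number
-/

set_option autoImplicit false

namespace Pool.Agent.Y94.LL

open Complex Finset Polynomial
open Pool.Agent.W401.SSS

/-- the finite set of the complex roots -/
noncomputable def SS (P : ℤ[X]) : Finset ℂ := (rts P).toFinset

/-- logarithm of the Mahler measure -/
noncomputable def HH (P : ℤ[X]) : ℝ :=
  Real.log (P.leadingCoeff : ℝ) + ∑ z ∈ SS P, Real.log (max 1 ‖z‖)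

theorem SS_sum {P : ℤ[X]} (hP : Adm P) (f : ℂ → ℝ) : ∑ z ∈ SS P, f z = rsum P f := by
  unfold SS rsum
  rw [Finset.sum, Multiset.toFinset_val, hP.nodup.dedup]

theorem SS_card {P : ℤ[X]} (hP : Adm P) : (SS P).card = P.natDegree := by
  unfold SS
  rw [Multiset.toFinset_card_of_nodup hP.nodup, rts_card]

theorem mem_SS {P : ℤ[X]} (hP : Adm P) (z : ℂ) : z ∈ SS P ↔ aeval z P = 0 := by
  unfold SS
  rw [Multiset.mem_toFinset, mem_rts hP.ne_zero]

theorem HH_nonneg {P : ℤ[X]} (hP : Adm P) : 0 ≤ HH P :=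
  add_nonneg hP.log_lc_nonneg (sum_nonneg fun _ _ => Real.log_nonneg (le_max_left _ _))

theorem res_one {P : ℤ[X]} (hP : Adm P) :
    -(2 * (P.natDegree : ℝ) * Real.log (P.leadingCoeff : ℝ)) ≤
      ∑ z ∈ SS P, ∑ w ∈ SS P, Real.log ‖z - w‖ := by
  have h := pRES {P} (fun _ => 1) (by
    intro Q hQ
    rw [mem_singleton] at hQ
    subst hQ
    exact ⟨hP, zero_le_one⟩)
  simp only [sum_singleton, one_mul] at h
  have e : ∑ z ∈ SS P, ∑ w ∈ SS P, Real.log ‖z - w‖ =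
      rsum P (fun α => rsum P (fun β => Real.log ‖α - β‖)) := by
    rw [← SS_sum hP]
    exact sum_congr rfl fun z _ => SS_sum hP _
  rw [e]
  linarith

/-- the power sums -/
noncomputable def ps (P : ℤ[X]) (k : ℕ) : ℂ := ∑ z ∈ SS P, hat z ^ k

theorem series (S : Finset ℂ) {ρ : ℝ} (h0 : 0 ≤ ρ) (h1 : ρ < 1) (n : ℕ) :
    ∑ k ∈ range n, ρ ^ (k + 1) / ((k : ℝ) + 1) * ‖∑ z ∈ S, hat z ^ (k + 1)‖ ^ 2 ≤
      -∑ z ∈ S, ∑ w ∈ S, Real.log ‖1 - (ρ : ℂ) * (hat z * (starRingEnd ℂ) (hat w))‖ := by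
  have hpair : ∀ z w : ℂ, HasSum
      (fun k : ℕ => (((ρ : ℂ) * (hat z * (starRingEnd ℂ) (hat w))) ^ k / (k : ℂ)).re)
      (-Real.log ‖1 - (ρ : ℂ) * (hat z * (starRingEnd ℂ) (hat w))‖) := by
    intro z w
    have hx : ‖(ρ : ℂ) * (hat z * (starRingEnd ℂ) (hat w))‖ < 1 := by
      rw [norm_mul, norm_mul, RCLike.norm_conj, Complex.norm_real, Real.norm_eq_abs,
        abs_of_nonneg h0]
      have := mul_le_one₀ (norm_hat_le z) (norm_nonneg _) (norm_hat_le w)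
      nlinarith
    have h2 := Complex.hasSum_re (Complex.hasSum_taylorSeries_neg_log hx)
    simpa [Complex.log_re] using h2
  have hsum : HasSum (fun k : ℕ => ∑ z ∈ S, ∑ w ∈ S,
      (((ρ : ℂ) * (hat z * (starRingEnd ℂ) (hat w))) ^ k / (k : ℂ)).re)
      (∑ z ∈ S, ∑ w ∈ S, -Real.log ‖1 - (ρ : ℂ) * (hat z * (starRingEnd ℂ) (hat w))‖) :=
    hasSum_sum fun z _ => hasSum_sum fun w _ => hpair z w
  have hterm : ∀ k : ℕ, ∑ z ∈ S, ∑ w ∈ S,
      (((ρ : ℂ) * (hat z * (starRingEnd ℂ) (hat w))) ^ k / (k : ℂ)).re =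
      ρ ^ k / (k : ℝ) * ‖∑ z ∈ S, hat z ^ k‖ ^ 2 := by
    intro k
    have e1 : ∑ z ∈ S, ∑ w ∈ S,
        (((ρ : ℂ) * (hat z * (starRingEnd ℂ) (hat w))) ^ k / (k : ℂ)) =
        ((ρ ^ k / (k : ℝ) * ‖∑ z ∈ S, hat z ^ k‖ ^ 2 : ℝ) : ℂ) := by
      push_cast
      rw [← Complex.conj_mul', mul_comm ((starRingEnd ℂ) (∑ z ∈ S, hat z ^ k)), map_sum,
        sum_mul_sum, mul_sum]
      apply sum_congr rfl
      intro z _
      rw [mul_sum]
      apply sum_congr rfl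
      intro w _
      rw [mul_pow, mul_pow, map_pow]
      ring
    have e2 := congrArg Complex.re e1
    rw [Complex.ofReal_re, Complex.re_sum] at e2
    rw [← e2]
    apply sum_congr rfl
    intro z _
    rw [Complex.re_sum]
  have hsum2 : HasSum (fun k : ℕ => ρ ^ k / (k : ℝ) * ‖∑ z ∈ S, hat z ^ k‖ ^ 2)
      (∑ z ∈ S, ∑ w ∈ S, -Real.log ‖1 - (ρ : ℂ) * (hat z * (starRingEnd ℂ) (hat w))‖) := by
    refine hsum.congr_fun ?_ |> fun h => h
    intro k
    exact (hterm k).symm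
  have h3 := sum_le_hasSum (range (n + 1)) (fun k _ => by positivity) hsum2
  rw [sum_range_succ'] at h3
  simp only [Nat.cast_zero, div_zero, zero_mul, add_zero, sum_neg_distrib, Nat.cast_add,
    Nat.cast_one] at h3
  exact h3

/-- the energy inequality -/
theorem energy {P : ℤ[X]} (hP : Adm P) {ρ : ℝ} (h0 : 0 ≤ ρ) (h1 : ρ < 1) (n : ℕ) :
    ∑ k ∈ range n, ρ ^ (k + 1) / ((k : ℝ) + 1) * ‖ps P (k + 1)‖ ^ 2 ≤
      2 * (P.natDegree : ℝ) * HH P + (P.natDegree : ℝ) ^ 2 * Real.log (2 / (1 + ρ)) +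
        (P.natDegree : ℝ) * Real.log (1 / (1 - ρ)) := by
  classical
  have hA := res_one hP
  have hB := series (SS P) h0 h1 n
  set d : ℝ := (P.natDegree : ℝ) with hd
  have hcard : ((SS P).card : ℝ) = d := by rw [SS_card hP]
  have hC : ∑ z ∈ SS P, ∑ w ∈ SS P, Real.log ‖z - w‖ ≤
      ∑ z ∈ SS P, ∑ w ∈ SS P, (Real.log (max 1 ‖z‖) + Real.log (max 1 ‖w‖) +
        Real.log (2 / (1 + ρ)) +
        Real.log ‖1 - (ρ : ℂ) * (hat z * (starRingEnd ℂ) (hat w))‖ +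
        if w = z then Real.log (1 / (1 - ρ)) else 0) := by
    apply sum_le_sum
    intro z _
    apply sum_le_sum
    intro w _
    by_cases hwz : w = z
    · subst hwz
      rw [if_pos rfl, sub_self, norm_zero, Real.log_zero]
      exact diag_log w h0 h1
    · rw [if_neg hwz, add_zero]
      exact pair_log (fun h => hwz h.symm) h0 h1
  have hD : ∑ z ∈ SS P, ∑ w ∈ SS P, (Real.log (max 1 ‖z‖) + Real.log (max 1 ‖w‖) +
        Real.log (2 / (1 + ρ)) +
        Real.log ‖1 - (ρ : ℂ) * (hat z * (starRingEnd ℂ) (hat w))‖ +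
        if w = z then Real.log (1 / (1 - ρ)) else 0) =
      2 * d * (∑ z ∈ SS P, Real.log (max 1 ‖z‖)) + d ^ 2 * Real.log (2 / (1 + ρ)) +
        ∑ z ∈ SS P, ∑ w ∈ SS P, Real.log ‖1 - (ρ : ℂ) * (hat z * (starRingEnd ℂ) (hat w))‖ +
        d * Real.log (1 / (1 - ρ)) := by
    simp only [sum_add_distrib, sum_const, nsmul_eq_mul, hcard, sum_ite_eq', ← mul_sum]
    have e : ∑ z ∈ SS P, (if z ∈ SS P then Real.log (1 / (1 - ρ)) else 0) =
        d * Real.log (1 / (1 - ρ)) := by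
      rw [sum_congr rfl (g := fun _ => Real.log (1 / (1 - ρ))) (fun z hz => if_pos hz),
        sum_const, nsmul_eq_mul, hcard]
    rw [e]
    ring
  have hE : HH P = Real.log (P.leadingCoeff : ℝ) + ∑ z ∈ SS P, Real.log (max 1 ‖z‖) := rfl
  unfold ps
  rw [hE]
  have hF := hA.trans (hC.trans hD.le)
  have hG : 2 * d * (Real.log (P.leadingCoeff : ℝ) + ∑ z ∈ SS P, Real.log (max 1 ‖z‖)) =
      2 * d * Real.log (P.leadingCoeff : ℝ) + 2 * d * ∑ z ∈ SS P, Real.log (max 1 ‖z‖) := by ring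
  rw [hG]
  linarith

end Pool.Agent.Y94.LL
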