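import Mathlib
import Pool.Agent.H388SL.DobC
import Pool.Agent.Y94.LL.En

/-!
# The theorem of Dobrowolski for integer polynomials
-/

set_option autoImplicit false

namespace Pool.Agent.Y94.LL

open Polynomial Module IntermediateField
open Pool.Agent.W401.SSS
open Pool.Agent.H388SL (lam CInj)

theorem rts_minpoly {L : Type} [Field L] [NumberField L] {α : L} (hα : CInj α) {P : ℤ[X]}
    (hP : P.map (Int.castRingHom ℚ) = minpoly ℚ α) (f : ℂ → ℝ) :
    rsum P f = ∑ τ : L →ₐ[ℚ] ℂ, f (τ α) := by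
  have h1 := Pool.Agent.H388SL.minpoly_map_eq hα
  have h2 : P.map (Int.castRingHom ℂ) = ∏ τ : L →ₐ[ℚ] ℂ, (X - C (τ α)) := by
    rw [← h1, ← hP, Polynomial.map_map]
    congr 1
  unfold rsum rts
  rw [h2]
  have h3 : (∏ τ : L →ₐ[ℚ] ℂ, (X - C (τ α))) =
      ((Finset.univ.val.map (fun τ : L →ₐ[ℚ] ℂ => τ α)).map (fun a => X - C a)).prod := by
    rw [Multiset.map_map]
    rfl
  rw [h3, Polynomial.roots_multiset_prod_X_sub_C, Multiset.map_map]
  rfl

theorem dob_poly : ∃ c : ℝ, 0 < c ∧ ∀ P : ℤ[X], Adm P → P.leadingCoeff = 1 →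
    (∀ z : ℂ, aeval z P = 0 → z ≠ 0 ∧ ∀ m : ℕ, 0 < m → z ^ m ≠ 1) →
    c / (Real.log (2 * P.natDegree)) ^ 3 ≤ HH P := by
  obtain ⟨c, hc, hdob⟩ := Pool.Agent.H388SL.dob
  refine ⟨c, hc, ?_⟩
  intro P hP hlc hroots
  have hmon : P.Monic := hlc
  obtain ⟨z, hz⟩ : ∃ z : ℂ, aeval z P = 0 := by
    have h1 : (P.map (Int.castRingHom ℂ)).degree ≠ 0 := by
      have h2 := natDegree_map_eq_of_injective (Int.castRingHom ℂ).injective_int P
      have h3 := hP.2.1
      exact degree_ne_of_natDegree_ne (n := 0) (by rw [h2]; omega)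
    obtain ⟨z, hz⟩ := IsAlgClosed.exists_root _ h1
    refine ⟨z, ?_⟩
    rw [IsRoot, eval_map] at hz
    exact hz
  obtain ⟨hz0, hzr⟩ := hroots z hz
  have hzi : IsIntegral ℤ z := ⟨P, hmon, hz⟩
  have hzQ : IsIntegral ℚ z := hzi.tower_top
  have hmin0 : minpoly ℤ z = P := by
    have h1 : minpoly ℤ z ∣ P := minpoly.isIntegrallyClosed_dvd hzi hz
    have h2 : ¬ IsUnit (minpoly ℤ z) := minpoly.not_isUnit ℤ z
    have h3 : Associated (minpoly ℤ z) P :=
      associated_of_dvd_dvd h1 ((hP.1.dvd_iff.1 h1).resolve_left h2).symm.dvd'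
    exact eq_of_monic_of_associated (minpoly.monic hzi) hmon h3
  set L := adjoin ℚ {z} with hL
  have hfin : FiniteDimensional ℚ L := adjoin.finiteDimensional hzQ
  have : NumberField L := { to_charZero := inferInstance, to_finiteDimensional := hfin }
  set α : L := AdjoinSimple.gen ℚ z with hα
  have hαz : algebraMap L ℂ α = z := AdjoinSimple.algebraMap_gen ℚ z
  have hαi : IsIntegral ℤ α := by
    rw [← hαz] at hzi
    exact (isIntegral_algebraMap_iff (algebraMap L ℂ).injective).mp hzi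
  have hα0 : α ≠ 0 := by
    intro h
    rw [h, map_zero] at hαz
    exact hz0 hαz.symm
  have hαroot : ∀ n : ℕ, 0 < n → α ^ n ≠ 1 := by
    intro n hn h
    have h1 := congrArg (algebraMap L ℂ) h
    rw [map_pow, hαz, map_one] at h1
    exact hzr n hn h1
  have hαc : CInj α := by
    intro σ τ h
    apply adjoin_algHom_ext ℚ (s := {z})
    intro x hx
    rw [Set.mem_singleton_iff] at hx
    subst hx
    exact h
  have hd : finrank ℚ L = P.natDegree := by
    rw [hL, adjoin.finrank hzQ, minpoly.isIntegrallyClosed_eq_field_fractions' ℚ hzi,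
      natDegree_map_eq_of_injective (algebraMap ℤ ℚ).injective_int, hmin0]
  have hmin : P.map (Int.castRingHom ℚ) = minpoly ℚ α := by
    have h1 : minpoly ℤ α = minpoly ℤ z := by
      rw [← hαz]
      exact (minpoly.algebraMap_eq (algebraMap L ℂ).injective α).symm
    rw [minpoly.isIntegrallyClosed_eq_field_fractions' ℚ hαi, h1, hmin0]
    rfl
  have hlam := hdob L α hαi hα0 hαroot hαc
  rw [hd] at hlam
  refine hlam.trans (le_of_eq ?_)
  unfold HH lam
  rw [SS_sum hP, hlc, Int.cast_one, Real.log_one, zero_add,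
    rts_minpoly hαc hmin (fun z => Real.log (max 1 ‖z‖))]

/-- lower bound for every irreducible polynomial -/
theorem low_all : ∃ c : ℝ, 0 < c ∧ ∀ P : ℤ[X], Adm P →
    (∀ z : ℂ, aeval z P = 0 → z ≠ 0 ∧ ∀ m : ℕ, 0 < m → z ^ m ≠ 1) →
    c / (Real.log (2 * P.natDegree)) ^ 3 ≤ HH P := by
  obtain ⟨c, hc, h⟩ := dob_poly
  have hl2 : 0 < Real.log 2 := Real.log_pos (by norm_num)
  refine ⟨min c ((Real.log 2) ^ 4), lt_min hc (by positivity), ?_⟩
  intro P hP hr
  have hd : (1 : ℝ) ≤ P.natDegree := hP.one_le_deg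
  have hL : Real.log 2 ≤ Real.log (2 * P.natDegree) :=
    Real.log_le_log (by norm_num) (by linarith)
  have hL0 : 0 < Real.log (2 * P.natDegree) := hl2.trans_le hL
  have hL3 : 0 < (Real.log (2 * P.natDegree)) ^ 3 := pow_pos hL0 3
  by_cases h1 : P.leadingCoeff = 1
  · refine le_trans ?_ (h P hP h1 hr)
    exact div_le_div_of_nonneg_right (min_le_left _ _) hL3.le
  · have h2 : (2 : ℤ) ≤ P.leadingCoeff := by
      have := hP.2.2
      omega
    have h3 : Real.log 2 ≤ Real.log (P.leadingCoeff : ℝ) :=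
      Real.log_le_log (by norm_num) (by exact_mod_cast h2)
    have h4 : Real.log 2 ≤ HH P := by
      have : 0 ≤ ∑ z ∈ SS P, Real.log (max 1 ‖z‖) :=
        Finset.sum_nonneg fun _ _ => Real.log_nonneg (le_max_left _ _)
      unfold HH
      linarith
    refine le_trans ?_ h4
    rw [div_le_iff₀ hL3]
    have h5 : (Real.log 2) ^ 3 ≤ (Real.log (2 * P.natDegree)) ^ 3 :=
      pow_le_pow_left₀ hl2.le hL 3
    calc min c ((Real.log 2) ^ 4) ≤ (Real.log 2) ^ 4 := min_le_right _ _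
      _ = Real.log 2 * (Real.log 2) ^ 3 := by ring
      _ ≤ Real.log 2 * (Real.log (2 * P.natDegree)) ^ 3 := mul_le_mul_of_nonneg_left h5 hl2.le

end Pool.Agent.Y94.LL
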