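import Mathlib

/-!
# The binomial kernel
-/

set_option autoImplicit false

namespace Pool.Agent.Y94.LL

open Complex Finset

/-- the coefficients -/
noncomputable def bb (n k : ℕ) : ℝ := ((2 * n).choose (n + k) : ℝ) / ((2 * n).choose n : ℝ)

theorem cpos (n : ℕ) : (0 : ℝ) < ((2 * n).choose n : ℝ) := by
  exact_mod_cast Nat.choose_pos (by omega)

theorem bb_nonneg (n k : ℕ) : 0 ≤ bb n k := by unfold bb; positivity

theorem bb_le_one (n k : ℕ) : bb n k ≤ 1 := by
  unfold bb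
  rw [div_le_one (cpos n)]
  exact_mod_cast Nat.choose_le_centralBinom (n + k) n

theorem bb_zero (n : ℕ) : bb n 0 = 1 := by
  unfold bb
  rw [add_zero]
  exact div_self (cpos n).ne'

theorem bb_rec (n k : ℕ) (hk : k ≤ n) :
    ((n : ℝ) + k + 1) * bb n (k + 1) = ((n : ℝ) - k) * bb n k := by
  unfold bb
  have h := Nat.choose_succ_right_eq (2 * n) (n + k)
  have h2 : ((2 * n).choose (n + k + 1) : ℝ) * ((n : ℝ) + k + 1) =
      ((2 * n).choose (n + k) : ℝ) * ((n : ℝ) - k) := by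
    have h3 : 2 * n - (n + k) = n - k := by omega
    rw [h3] at h
    have h4 : ((((2 * n).choose (n + k + 1) * (n + k + 1) : ℕ)) : ℝ) =
        (((2 * n).choose (n + k) * (n - k) : ℕ) : ℝ) := by rw [h]
    rw [Nat.cast_mul, Nat.cast_mul, Nat.cast_sub hk] at h4
    push_cast at h4
    exact h4
  rw [← add_assoc, mul_div_assoc', mul_div_assoc']
  congr 1
  linarith

theorem sum_bb (n m : ℕ) (hm : m ≤ n + 1) :
    ∑ k ∈ range m, (k : ℝ) * bb n k = (n : ℝ) / 2 - ((n : ℝ) + m) / 2 * bb n m := by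
  induction m with
  | zero => simp [bb_zero]
  | succ m ih =>
    rw [sum_range_succ, ih (by omega)]
    have h := bb_rec n m (by omega)
    push_cast
    have h' : ((n : ℝ) + (m + 1)) * bb n (m + 1) = ((n : ℝ) - m) * bb n m := by
      rw [← h]; ring
    linarith

theorem sum_bb_le (n : ℕ) : ∑ k ∈ range n, ((k : ℝ) + 1) * bb n (k + 1) ≤ (n : ℝ) / 2 := by
  have h := sum_bb n (n + 1) le_rfl
  rw [sum_range_succ'] at h
  simp only [Nat.cast_zero, zero_mul, add_zero, Nat.cast_add, Nat.cast_one] at h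
  rw [h]
  have h2 : 0 ≤ ((n : ℝ) + (n + 1)) / 2 * bb n (n + 1) :=
    mul_nonneg (by positivity) (bb_nonneg _ _)
  linarith

/-- the kernel -/
noncomputable def TT (n : ℕ) (z : ℂ) : ℝ :=
  1 + 2 * ∑ k ∈ range n, bb n (k + 1) * (z ^ (k + 1)).re

theorem TT_circle (n : ℕ) {w : ℂ} (hw : ‖w‖ = 1) :
    TT n w = ‖1 + w‖ ^ (2 * n) / ((2 * n).choose n : ℝ) := by
  have hww : w * (starRingEnd ℂ) w = 1 := by
    rw [Complex.mul_conj, Complex.normSq_eq_norm_sq, hw]; simp
  have h1 : ((‖1 + w‖ ^ (2 * n) : ℝ) : ℂ) = (1 + w) ^ (2 * n) * ((starRingEnd ℂ) w) ^ n := by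
    have h2 : ((‖1 + w‖ ^ 2 : ℝ) : ℂ) = (1 + w) ^ 2 * (starRingEnd ℂ) w := by
      rw [← Complex.normSq_eq_norm_sq, ← Complex.mul_conj, map_add, map_one]
      linear_combination (-(1 + w) : ℂ) * hww
    rw [pow_mul, Complex.ofReal_pow, h2, mul_pow, ← pow_mul]
  have h2 : (1 + w) ^ (2 * n) * ((starRingEnd ℂ) w) ^ n =
      ∑ m ∈ range (2 * n + 1), w ^ m * ((starRingEnd ℂ) w) ^ n * ((2 * n).choose m : ℂ) := by
    rw [add_comm, add_pow, sum_mul]
    apply sum_congr rfl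
    intro m _
    rw [one_pow]; ring
  have h3 : ‖1 + w‖ ^ (2 * n) =
      ∑ m ∈ range (2 * n + 1), ((2 * n).choose m : ℝ) * (w ^ m * ((starRingEnd ℂ) w) ^ n).re := by
    have h4 := congrArg Complex.re (h1.trans h2)
    rw [Complex.ofReal_re, Complex.re_sum] at h4
    rw [h4]
    apply sum_congr rfl
    intro m _
    rw [← Complex.ofReal_natCast, Complex.re_mul_ofReal]
    ring
  have hge : ∀ j, (w ^ (n + j) * ((starRingEnd ℂ) w) ^ n).re = (w ^ j).re := by
    intro j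
    have : w ^ (n + j) * ((starRingEnd ℂ) w) ^ n = w ^ j := by
      rw [pow_add, mul_right_comm, ← mul_pow, hww, one_pow, one_mul]
    rw [this]
  have hlt : ∀ i < n, (w ^ (n - 1 - i) * ((starRingEnd ℂ) w) ^ n).re = (w ^ (i + 1)).re := by
    intro i hi
    have e : n = (n - 1 - i) + (i + 1) := by omega
    have : w ^ (n - 1 - i) * ((starRingEnd ℂ) w) ^ n = (starRingEnd ℂ) (w ^ (i + 1)) := by
      conv_lhs => rw [show ((starRingEnd ℂ) w) ^ n =
        ((starRingEnd ℂ) w) ^ (n - 1 - i) * ((starRingEnd ℂ) w) ^ (i + 1) by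
          rw [← pow_add, ← e]]
      rw [← mul_assoc, ← mul_pow, hww, one_pow, one_mul, map_pow]
    rw [this, Complex.conj_re]
  have h5 : ‖1 + w‖ ^ (2 * n) = ((2 * n).choose n : ℝ) +
      2 * ∑ i ∈ range n, ((2 * n).choose (n + (i + 1)) : ℝ) * (w ^ (i + 1)).re := by
    rw [h3, show 2 * n + 1 = n + (n + 1) by ring, sum_range_add]
    have e1 : ∑ m ∈ range n, ((2 * n).choose m : ℝ) * (w ^ m * ((starRingEnd ℂ) w) ^ n).re =
        ∑ i ∈ range n, ((2 * n).choose (n + (i + 1)) : ℝ) * (w ^ (i + 1)).re := by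
      rw [← sum_range_reflect]
      apply sum_congr rfl
      intro i hi
      rw [mem_range] at hi
      rw [hlt i hi]
      congr 2
      have := Nat.choose_symm (n := 2 * n) (k := n + (i + 1)) (by omega)
      rw [← this]
      congr 1
      omega
    have e2 : ∑ j ∈ range (n + 1), ((2 * n).choose (n + j) : ℝ) *
        (w ^ (n + j) * ((starRingEnd ℂ) w) ^ n).re =
        ((2 * n).choose n : ℝ) +
          ∑ i ∈ range n, ((2 * n).choose (n + (i + 1)) : ℝ) * (w ^ (i + 1)).re := by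
      rw [sum_range_succ', add_comm]
      congr 1
      · rw [hge 0]; simp
      · apply sum_congr rfl
        intro i _
        rw [hge]
    rw [e1, e2]
    ring
  have hc := cpos n
  rw [h5, TT, add_div, div_self hc.ne', mul_div_assoc, sum_div]
  congr 2
  apply sum_congr rfl
  intro i _
  unfold bb
  ring

theorem TT_radial (n : ℕ) {w : ℂ} (hw : ‖w‖ = 1) {r : ℝ} (h0 : 0 ≤ r) (h1 : r ≤ 1) :
    TT n ((r : ℂ) * w) ≤ TT n w + n * (1 - r) := by
  have h2 : ∀ k : ℕ, ((((r : ℂ) * w) ^ (k + 1)).re) ≤ (w ^ (k + 1)).re + ((k : ℝ) + 1) * (1 - r) := by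
    intro k
    have e : (((r : ℂ) * w) ^ (k + 1)).re = r ^ (k + 1) * (w ^ (k + 1)).re := by
      rw [mul_pow, ← Complex.ofReal_pow, Complex.re_ofReal_mul]
    rw [e]
    have h3 : 1 - r ^ (k + 1) ≤ ((k : ℝ) + 1) * (1 - r) := by
      have h4 := one_add_mul_sub_le_pow (a := r) (by linarith) (k + 1)
      push_cast at h4
      linarith
    have h5 : r ^ (k + 1) ≤ 1 := pow_le_one₀ h0 h1
    have h6 : -1 ≤ (w ^ (k + 1)).re := by
      have h7 := Complex.abs_re_le_norm (w ^ (k + 1))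
      rw [norm_pow, hw, one_pow] at h7
      exact (abs_le.1 h7).1
    nlinarith
  unfold TT
  have h3 : ∑ k ∈ range n, bb n (k + 1) * ((((r : ℂ) * w) ^ (k + 1)).re) ≤
      ∑ k ∈ range n, bb n (k + 1) * (w ^ (k + 1)).re +
        (1 - r) * ∑ k ∈ range n, ((k : ℝ) + 1) * bb n (k + 1) := by
    rw [mul_sum, ← sum_add_distrib]
    apply sum_le_sum
    intro k _
    have := mul_le_mul_of_nonneg_left (h2 k) (bb_nonneg n (k + 1))
    linarith
  have h4 := mul_le_mul_of_nonneg_left (sum_bb_le n) (by linarith : (0 : ℝ) ≤ 1 - r)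
  linarith

/-- `16^n ≤ 4 n C(2n,n)^2` -/
theorem central_sq (n : ℕ) (hn : 1 ≤ n) :
    (16 : ℝ) ^ n ≤ 4 * n * ((2 * n).choose n : ℝ) ^ 2 := by
  induction n, hn using Nat.le_induction with
  | base => norm_num [Nat.choose]
  | succ n hn ih =>
    have h := Nat.succ_mul_centralBinom_succ n
    have h' : ((n : ℝ) + 1) * ((2 * (n + 1)).choose (n + 1) : ℝ) =
        2 * (2 * n + 1) * ((2 * n).choose n : ℝ) := by
      have := congrArg (Nat.cast : ℕ → ℝ) h
      unfold Nat.centralBinom at this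
      push_cast at this
      convert this using 2
    have hn0 : (0 : ℝ) < n := by exact_mod_cast hn
    have hn1 : (0 : ℝ) < (n : ℝ) + 1 := by linarith
    set A : ℝ := ((2 * n).choose n : ℝ) with hA
    set A' : ℝ := ((2 * (n + 1)).choose (n + 1) : ℝ) with hA'
    have e : A' = 2 * (2 * n + 1) * A / ((n : ℝ) + 1) := by
      rw [eq_div_iff hn1.ne']; linarith
    rw [pow_succ]
    push_cast
    rw [e, div_pow]
    have e2 : 4 * ((n : ℝ) + 1) * ((2 * (2 * n + 1) * A) ^ 2 / ((n : ℝ) + 1) ^ 2) =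
        16 * (2 * n + 1) ^ 2 * A ^ 2 / ((n : ℝ) + 1) := by
      field_simp
      ring
    rw [e2, le_div_iff₀ hn1]
    have h3 : 4 * (n : ℝ) * (n + 1) ≤ (2 * n + 1) ^ 2 := by nlinarith
    have h4 : 0 ≤ A ^ 2 := sq_nonneg _
    calc (16 : ℝ) ^ n * 16 * ((n : ℝ) + 1) ≤ (4 * n * A ^ 2) * 16 * ((n : ℝ) + 1) := by
          have : (0 : ℝ) ≤ 16 * ((n : ℝ) + 1) := by positivity
          nlinarith
      _ = 16 * (4 * (n : ℝ) * (n + 1)) * A ^ 2 := by ring
      _ ≤ 16 * (2 * n + 1) ^ 2 * A ^ 2 := by nlinarith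

theorem four_pow_div_le (n : ℕ) (hn : 1 ≤ n) :
    (4 : ℝ) ^ n / ((2 * n).choose n : ℝ) ≤ 2 * Real.sqrt n := by
  rw [div_le_iff₀ (cpos n)]
  have h := central_sq n hn
  have h2 : (4 : ℝ) ^ n = Real.sqrt ((16 : ℝ) ^ n) := by
    rw [show (16 : ℝ) = 4 ^ 2 by norm_num, ← pow_mul, mul_comm 2 n, pow_mul,
      Real.sqrt_sq (by positivity)]
  rw [h2]
  calc Real.sqrt ((16 : ℝ) ^ n) ≤ Real.sqrt (4 * n * ((2 * n).choose n : ℝ) ^ 2) :=
        Real.sqrt_le_sqrt h
    _ = 2 * Real.sqrt n * ((2 * n).choose n : ℝ) := by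
      rw [Real.sqrt_mul (by positivity), Real.sqrt_sq (cpos n).le,
        Real.sqrt_mul (by norm_num), show (4 : ℝ) = 2 ^ 2 by norm_num,
        Real.sqrt_sq (by norm_num)]

end Pool.Agent.Y94.LL
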