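import Mathlib
import Pool.Agent.Y94.LL.Ker
import Pool.Agent.Y94.LL.Hat

/-!
# Upper bound for the kernel at the reflected points outside a disc
-/

set_option autoImplicit false

namespace Pool.Agent.Y94.LL

open Complex

theorem hat_polar {z : ℂ} (hz : z ≠ 0) : ∃ (r : ℝ) (w : ℂ), 0 ≤ r ∧ r ≤ 1 ∧ ‖w‖ = 1 ∧
    hat z = (r : ℂ) * w ∧ z = (‖z‖ : ℂ) * w ∧ 1 - r ≤ |Real.log ‖z‖| ∧
    (‖z‖ ≤ 1 → r = ‖z‖) ∧ (1 < ‖z‖ → r = 1 / ‖z‖) := by
  have hn : 0 < ‖z‖ := norm_pos_iff.2 hz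
  have hnc : (‖z‖ : ℂ) ≠ 0 := by exact_mod_cast hn.ne'
  have hw : ‖z / (‖z‖ : ℂ)‖ = 1 := by
    rw [norm_div, Complex.norm_real, Real.norm_eq_abs, abs_of_pos hn, div_self hn.ne']
  by_cases h : ‖z‖ ≤ 1
  · refine ⟨‖z‖, z / (‖z‖ : ℂ), hn.le, h, hw, ?_, ?_, ?_, fun _ => rfl, fun h2 => absurd h (not_le.2 h2)⟩
    · unfold hat
      rw [if_pos h]
      field_simp
    · field_simp
    · have h1 := Real.log_le_sub_one_of_pos hn
      have h2 := neg_abs_le (Real.log ‖z‖)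
      have h3 := neg_le_abs (Real.log ‖z‖)
      linarith
  · have h' := not_le.1 h
    have hn1 : 0 < 1 / ‖z‖ := by positivity
    refine ⟨1 / ‖z‖, z / (‖z‖ : ℂ), hn1.le, ?_, hw, ?_, ?_, ?_,
      fun h2 => absurd h2 h, fun _ => rfl⟩
    · rw [div_le_one hn]; exact h'.le
    · unfold hat
      rw [if_neg h]
      have hc : (starRingEnd ℂ) z ≠ 0 := by simpa using hz
      have e : z * (starRingEnd ℂ) z = (‖z‖ : ℂ) * (‖z‖ : ℂ) := by
        rw [Complex.mul_conj, Complex.normSq_eq_norm_sq]; push_cast; ring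
      push_cast
      field_simp
      rw [mul_comm ((starRingEnd ℂ) z) z, e]
      ring
    · field_simp
    · have h1 := Real.log_le_sub_one_of_pos hn1
      rw [one_div, Real.log_inv, ← one_div] at h1
      have h3 := le_abs_self (Real.log ‖z‖)
      linarith

theorem pt_bound {ζ : ℂ} (hζ : ‖ζ‖ = 1) {ε : ℝ} (h0 : 0 < ε) (h1 : ε ≤ 1 / 2) {n : ℕ}
    (hn : 36 ≤ (n : ℝ) * ε ^ 2) {z : ℂ} (hz : z ≠ 0) (hd : ε ≤ ‖z - ζ‖) :
    TT n (hat z * (starRingEnd ℂ) ζ) ≤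
      2 * n * Real.exp (-(n * ε ^ 2 / 16)) + 2 * n * |Real.log ‖z‖| := by
  have hn0 : (0 : ℝ) < n := by
    by_contra hcon
    have : (n : ℝ) * ε ^ 2 ≤ 0 := mul_nonpos_of_nonpos_of_nonneg (not_lt.1 hcon) (sq_nonneg _)
    linarith
  have hn1 : 1 ≤ n := by
    have : 0 < n := by exact_mod_cast hn0
    omega
  have hn1' : (1 : ℝ) ≤ n := by exact_mod_cast hn1
  obtain ⟨r, w, hr0, hr1, hw, hhat, hzw, hlog, hle, hgt⟩ := hat_polar hz
  have hu : ‖w * (starRingEnd ℂ) ζ‖ = 1 := by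
    rw [norm_mul, RCLike.norm_conj, hw, hζ, one_mul]
  have hrad := TT_radial n hu hr0 hr1
  have e1 : hat z * (starRingEnd ℂ) ζ = (r : ℂ) * (w * (starRingEnd ℂ) ζ) := by
    rw [hhat]; ring
  rw [e1]
  have hζζ : ζ * (starRingEnd ℂ) ζ = 1 := by
    rw [Complex.mul_conj, Complex.normSq_eq_norm_sq, hζ]; simp
  have hdist : ‖1 - w * (starRingEnd ℂ) ζ‖ = ‖ζ - w‖ := by
    have : 1 - w * (starRingEnd ℂ) ζ = (ζ - w) * (starRingEnd ℂ) ζ := by
      rw [sub_mul, hζζ]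
    rw [this, norm_mul, RCLike.norm_conj, hζ, mul_one]
  have hpar : ‖1 + w * (starRingEnd ℂ) ζ‖ ^ 2 = 4 - ‖ζ - w‖ ^ 2 := by
    have h := parallelogram_law_with_norm ℝ (1 : ℂ) (w * (starRingEnd ℂ) ζ)
    rw [hdist, hu, norm_one] at h
    nlinarith
  have hsq0 : 0 ≤ ‖1 + w * (starRingEnd ℂ) ζ‖ ^ 2 := sq_nonneg _
  have hC := cpos n
  have hfour := four_pow_div_le n hn1
  have hsqrt : Real.sqrt n ≤ n := by
    rw [Real.sqrt_le_left hn0.le]
    nlinarith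
  have hexp0 : 0 ≤ 2 * (n : ℝ) * Real.exp (-(n * ε ^ 2 / 16)) := by positivity
  rw [TT_circle n hu] at hrad
  rw [pow_mul] at hrad
  have hr2 : 0 ≤ 1 - r := by linarith
  by_cases hA : ε / 2 ≤ ‖ζ - w‖
  · have h2 : ‖1 + w * (starRingEnd ℂ) ζ‖ ^ 2 ≤ 4 * Real.exp (-(ε ^ 2 / 16)) := by
      have h3 := Real.add_one_le_exp (-(ε ^ 2 / 16))
      have h4 : (ε / 2) ^ 2 ≤ ‖ζ - w‖ ^ 2 := pow_le_pow_left₀ (by linarith) hA 2
      rw [hpar]
      nlinarith
    have h3 : (‖1 + w * (starRingEnd ℂ) ζ‖ ^ 2) ^ n ≤ 4 ^ n * Real.exp (-(n * ε ^ 2 / 16)) := by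
      have h4 := pow_le_pow_left₀ hsq0 h2 n
      rw [mul_pow, ← Real.exp_nat_mul] at h4
      have e : (n : ℝ) * -(ε ^ 2 / 16) = -(n * ε ^ 2 / 16) := by ring
      rwa [e] at h4
    have h4 : (‖1 + w * (starRingEnd ℂ) ζ‖ ^ 2) ^ n / ((2 * n).choose n : ℝ) ≤
        2 * n * Real.exp (-(n * ε ^ 2 / 16)) := by
      calc (‖1 + w * (starRingEnd ℂ) ζ‖ ^ 2) ^ n / ((2 * n).choose n : ℝ) ≤
          4 ^ n * Real.exp (-(n * ε ^ 2 / 16)) / ((2 * n).choose n : ℝ) :=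
            div_le_div_of_nonneg_right h3 hC.le
        _ = (4 ^ n / ((2 * n).choose n : ℝ)) * Real.exp (-(n * ε ^ 2 / 16)) := by ring
        _ ≤ 2 * n * Real.exp (-(n * ε ^ 2 / 16)) := by
            apply mul_le_mul_of_nonneg_right _ (Real.exp_pos _).le
            linarith
    have h5 : (n : ℝ) * (1 - r) ≤ 2 * n * |Real.log ‖z‖| := by
      have := mul_le_mul_of_nonneg_left hlog hn0.le
      have h6 : 0 ≤ (n : ℝ) * |Real.log ‖z‖| := by positivity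
      linarith
    linarith
  · have hA' := not_le.1 hA
    have h2 : ε / 2 < |‖z‖ - 1| := by
      have h3 : ‖z - w‖ = |‖z‖ - 1| := by
        have e : z - w = ((‖z‖ - 1 : ℝ) : ℂ) * w := by
          push_cast
          rw [sub_mul, ← hzw, one_mul]
        rw [e, norm_mul, Complex.norm_real, Real.norm_eq_abs, hw, mul_one]
      have h4 : ‖z - ζ‖ ≤ ‖z - w‖ + ‖ζ - w‖ := by
        have := norm_sub_le (z - w) (ζ - w)
        have e : z - w - (ζ - w) = z - ζ := by ring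
        rwa [e] at this
      linarith
    have h3 : ε / 3 ≤ 1 - r := by
      by_cases hz1 : ‖z‖ ≤ 1
      · rw [hle hz1]
        rw [abs_of_nonpos (by linarith)] at h2
        linarith
      · have hz1' := not_le.1 hz1
        rw [hgt hz1']
        rw [abs_of_pos (by linarith)] at h2
        have hzp : 0 < ‖z‖ := by linarith
        have h4 : 1 / ‖z‖ ≤ 1 - ε / 3 := by
          rw [div_le_iff₀ hzp]
          nlinarith
        linarith
    have h4 : (‖1 + w * (starRingEnd ℂ) ζ‖ ^ 2) ^ n / ((2 * n).choose n : ℝ) ≤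
        2 * Real.sqrt n := by
      refine le_trans ?_ hfour
      apply div_le_div_of_nonneg_right _ hC.le
      apply pow_le_pow_left₀ hsq0
      rw [hpar]
      have := sq_nonneg ‖ζ - w‖
      linarith
    have h5 : 2 * Real.sqrt n ≤ n * (1 - r) := by
      have h6 : 6 ≤ Real.sqrt n * ε := by
        have h7 : (6 : ℝ) = Real.sqrt 36 := by
          rw [show (36 : ℝ) = 6 ^ 2 by norm_num, Real.sqrt_sq (by norm_num)]
        rw [h7]
        calc Real.sqrt 36 ≤ Real.sqrt (n * ε ^ 2) := Real.sqrt_le_sqrt hn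
          _ = Real.sqrt n * ε := by rw [Real.sqrt_mul hn0.le, Real.sqrt_sq h0.le]
      have h7 : (n : ℝ) = Real.sqrt n * Real.sqrt n := (Real.mul_self_sqrt hn0.le).symm
      have h8 : 0 ≤ Real.sqrt n := Real.sqrt_nonneg _
      calc 2 * Real.sqrt n ≤ Real.sqrt n * (Real.sqrt n * ε) / 3 := by nlinarith
        _ = n * (ε / 3) := by rw [← mul_assoc, ← h7]; ring
        _ ≤ n * (1 - r) := mul_le_mul_of_nonneg_left h3 hn0.le
    have h6 := mul_le_mul_of_nonneg_left hlog hn0.le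
    linarith

end Pool.Agent.Y94.LL
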