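import Mathlib
import Pool.Agent.Y94.LL.Pt
import Pool.Agent.Y94.LL.En

/-!
# Degree against height for algebraic numbers without conjugates in a disc
-/

set_option autoImplicit false

namespace Pool.Agent.Y94.LL

open Complex Finset Polynomial
open Pool.Agent.W401.SSS

theorem abs_log_eq {x : ℝ} (hx : 0 < x) : |Real.log x| = 2 * Real.log (max 1 x) - Real.log x := by
  rcases le_total x 1 with h | h
  · rw [max_eq_left h, Real.log_one, abs_of_nonpos (Real.log_nonpos hx.le h)]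
    ring
  · rw [max_eq_right h, abs_of_nonneg (Real.log_nonneg h)]
    ring

theorem sum_abs_log {P : ℤ[X]} (hP : Adm P) (h0 : ∀ z : ℂ, aeval z P = 0 → z ≠ 0) :
    ∑ z ∈ SS P, |Real.log ‖z‖| ≤ 2 * HH P := by
  have hP0 : aeval (0 : ℂ) P ≠ 0 := fun h => h0 0 h rfl
  have h1 := log_norm_aeval hP0
  have h2 : 0 ≤ Real.log ‖aeval (0 : ℂ) P‖ := by
    apply Real.log_nonneg
    have e : aeval (0 : ℂ) P = ((P.coeff 0 : ℤ) : ℂ) := by
      rw [aeval_def, eval₂_at_zero]
      simp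
    rw [e] at hP0 ⊢
    rw [Complex.norm_intCast]
    have h3 : P.coeff 0 ≠ 0 := by
      intro h
      rw [h] at hP0
      exact hP0 (by simp)
    exact_mod_cast Int.one_le_abs h3
  rw [← SS_sum hP, abs_of_pos hP.lc_pos] at h1
  have h3 : ∑ z ∈ SS P, Real.log ‖(0 : ℂ) - z‖ = ∑ z ∈ SS P, Real.log ‖z‖ := by
    apply sum_congr rfl
    intro z _
    rw [zero_sub, norm_neg]
  rw [h3] at h1
  have h4 : ∑ z ∈ SS P, |Real.log ‖z‖| =
      2 * ∑ z ∈ SS P, Real.log (max 1 ‖z‖) - ∑ z ∈ SS P, Real.log ‖z‖ := by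
    rw [mul_sum, ← sum_sub_distrib]
    apply sum_congr rfl
    intro z hz
    exact abs_log_eq (norm_pos_iff.2 (h0 z ((mem_SS hP z).1 hz)))
  rw [h4]
  have h5 := hP.log_lc_nonneg
  unfold HH
  linarith

theorem amgm {b s t m q : ℝ} (hb0 : 0 ≤ b) (hb1 : b ≤ 1) (hs : 0 ≤ s) (ht : 0 < t) (hm : 0 < m)
    (hq : 1 / 3 ≤ q) : 2 * (b * s) ≤ 3 * t * (m * b) + q / m * s ^ 2 / t := by
  have hq0 : 0 < q := by linarith
  have hX : 0 ≤ 3 * t * (m * b) := by positivity
  have hY : 0 ≤ q / m * s ^ 2 / t := by positivity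
  have h1 : (3 * t * (m * b)) * (q / m * s ^ 2 / t) = 3 * q * b * s ^ 2 := by
    field_simp
  have h2 : (b * s) ^ 2 ≤ (3 * t * (m * b)) * (q / m * s ^ 2 / t) := by
    rw [h1, mul_pow]
    apply mul_le_mul_of_nonneg_right _ (sq_nonneg s)
    nlinarith
  have h3 : (2 * (b * s)) ^ 2 ≤ (3 * t * (m * b) + q / m * s ^ 2 / t) ^ 2 := by
    nlinarith [sq_nonneg (3 * t * (m * b) - q / m * s ^ 2 / t)]
  exact le_of_sq_le_sq h3 (by linarith)

/-- the basic dichotomy -/
theorem dichotomy {P : ℤ[X]} (hP : Adm P) (h0 : ∀ z : ℂ, aeval z P = 0 → z ≠ 0)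
    {ζ : ℂ} (hζ : ‖ζ‖ = 1) {ε : ℝ} (he0 : 0 < ε) (he1 : ε ≤ 1 / 2)
    (hout : ∀ z : ℂ, aeval z P = 0 → ε ≤ ‖z - ζ‖) {n : ℕ} (hn : 36 ≤ (n : ℝ) * ε ^ 2)
    (hexp : 2 * n * Real.exp (-(n * ε ^ 2 / 16)) ≤ 1 / 4)
    (hd : 24 * (n : ℝ) * (1 + Real.log (P.natDegree + 1)) ≤ P.natDegree) :
    (P.natDegree : ℝ) ≤ 64 * n * HH P := by
  classical
  set d : ℝ := (P.natDegree : ℝ) with hdd
  have hd1 : 1 ≤ d := hP.one_le_deg
  have hn0 : (0 : ℝ) < n := by
    by_contra hcon
    have : (n : ℝ) * ε ^ 2 ≤ 0 := mul_nonpos_of_nonpos_of_nonneg (not_lt.1 hcon) (sq_nonneg _)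
    linarith
  have hlog0 : 0 ≤ Real.log (d + 1) := Real.log_nonneg (by linarith)
  have hnd : (n : ℝ) ≤ d := by nlinarith
  have hH0 := HH_nonneg hP
  -- the sum of the kernel
  have hcard : ((SS P).card : ℝ) = d := by rw [SS_card hP]
  have hT1 : ∑ z ∈ SS P, TT n (hat z * (starRingEnd ℂ) ζ) ≤ d * (1 / 4) + 4 * n * HH P := by
    have h1 : ∑ z ∈ SS P, TT n (hat z * (starRingEnd ℂ) ζ) ≤
        ∑ z ∈ SS P, (1 / 4 + 2 * n * |Real.log ‖z‖|) := by
      apply sum_le_sum
      intro z hz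
      have hz' := (mem_SS hP z).1 hz
      have := pt_bound hζ he0 he1 hn (h0 z hz') (hout z hz')
      linarith
    rw [sum_add_distrib, sum_const, nsmul_eq_mul, hcard, ← mul_sum] at h1
    have h2 := mul_le_mul_of_nonneg_left (sum_abs_log hP h0) (by positivity : (0 : ℝ) ≤ 2 * n)
    linarith
  have hT2 : ∑ z ∈ SS P, TT n (hat z * (starRingEnd ℂ) ζ) =
      d + 2 * ∑ k ∈ range n, bb n (k + 1) * (((starRingEnd ℂ) ζ) ^ (k + 1) * ps P (k + 1)).re := by
    unfold TT
    rw [sum_add_distrib, sum_const, nsmul_eq_mul, hcard, mul_one, ← mul_sum, sum_comm]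
    congr 2
    apply sum_congr rfl
    intro k _
    rw [← mul_sum, ← Complex.re_sum]
    congr 2
    unfold ps
    rw [mul_sum]
    apply sum_congr rfl
    intro z _
    rw [mul_pow]
    ring
  have hT3 : d ≤ d * (1 / 4) + 4 * n * HH P +
      ∑ k ∈ range n, 2 * (bb n (k + 1) * ‖ps P (k + 1)‖) := by
    have h1 : -(∑ k ∈ range n, bb n (k + 1) * ‖ps P (k + 1)‖) ≤
        ∑ k ∈ range n, bb n (k + 1) * (((starRingEnd ℂ) ζ) ^ (k + 1) * ps P (k + 1)).re := by
      rw [← sum_neg_distrib]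
      apply sum_le_sum
      intro k _
      have h2 := Complex.abs_re_le_norm (((starRingEnd ℂ) ζ) ^ (k + 1) * ps P (k + 1))
      rw [norm_mul, norm_pow, RCLike.norm_conj, hζ, one_pow, one_mul] at h2
      have h3 := (abs_le.1 h2).1
      have h4 := mul_le_mul_of_nonneg_left h3 (bb_nonneg n (k + 1))
      linarith
    rw [← mul_sum]
    linarith
  -- the energy
  set ρ : ℝ := d / (d + 1) with hρ
  have hd10 : 0 < d + 1 := by linarith
  have hρ0 : 0 ≤ ρ := by positivity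
  have hρ1 : ρ < 1 := by rw [hρ, div_lt_one hd10]; linarith
  have hE := energy hP hρ0 hρ1 n
  have hE1 : Real.log (2 / (1 + ρ)) ≤ 1 / d := by
    have e : 2 / (1 + ρ) = 1 + 1 / (2 * d + 1) := by
      rw [hρ]
      field_simp
      ring
    have h2 : Real.log (1 + 1 / (2 * d + 1)) ≤ 1 / (2 * d + 1) := by
      have := Real.log_le_sub_one_of_pos (show 0 < 1 + 1 / (2 * d + 1) by positivity)
      linarith
    rw [e]
    refine h2.trans ?_
    exact one_div_le_one_div_of_le (by linarith) (by linarith)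
  have hE2 : Real.log (1 / (1 - ρ)) = Real.log (d + 1) := by
    congr 1
    rw [hρ]
    field_simp
    ring
  have hE3 : ∑ k ∈ range n, ρ ^ (k + 1) / ((k : ℝ) + 1) * ‖ps P (k + 1)‖ ^ 2 ≤
      2 * d * HH P + d + d * Real.log (d + 1) := by
    rw [hE2] at hE
    have h2 : d ^ 2 * Real.log (2 / (1 + ρ)) ≤ d := by
      calc d ^ 2 * Real.log (2 / (1 + ρ)) ≤ d ^ 2 * (1 / d) :=
            mul_le_mul_of_nonneg_left hE1 (sq_nonneg d)
        _ = d := by field_simp
    linarith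
  have hρk : ∀ k ∈ range n, 1 / 3 ≤ ρ ^ (k + 1) := by
    intro k hk
    rw [mem_range] at hk
    have h1 : Real.exp (-(1 / d)) ≤ ρ := by
      have h2 := Real.add_one_le_exp (1 / d)
      rw [Real.exp_neg, hρ]
      rw [inv_le_comm₀ (Real.exp_pos _) (by positivity)]
      have e : (d / (d + 1))⁻¹ = 1 / d + 1 := by
        field_simp
        ring
      rw [e]
      exact h2
    have h2 : Real.exp (-1) ≤ ρ ^ (k + 1) := by
      calc Real.exp (-1) ≤ Real.exp (((k + 1 : ℕ) : ℝ) * -(1 / d)) := by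
            apply Real.exp_le_exp.2
            have h3 : ((k + 1 : ℕ) : ℝ) ≤ d := by
              have : ((k + 1 : ℕ) : ℝ) ≤ n := by exact_mod_cast hk
              linarith
            have h4 : ((k + 1 : ℕ) : ℝ) * (1 / d) ≤ 1 := by
              rw [mul_one_div, div_le_one (by linarith)]
              exact h3
            linarith
        _ = (Real.exp (-(1 / d))) ^ (k + 1) := by rw [Real.exp_nat_mul]
        _ ≤ ρ ^ (k + 1) := pow_le_pow_left₀ (Real.exp_pos _).le h1 _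
    have h3 : (1 : ℝ) / 3 ≤ Real.exp (-1) := by
      rw [Real.exp_neg, one_div]
      apply inv_anti₀ (Real.exp_pos _)
      have := Real.exp_one_lt_d9
      linarith
    exact h3.trans h2
  set t : ℝ := d / (6 * n) with ht
  have ht0 : 0 < t := by positivity
  have hS : ∑ k ∈ range n, 2 * (bb n (k + 1) * ‖ps P (k + 1)‖) ≤
      3 * t * (n / 2) + (2 * d * HH P + d + d * Real.log (d + 1)) / t := by
    calc ∑ k ∈ range n, 2 * (bb n (k + 1) * ‖ps P (k + 1)‖) ≤
        ∑ k ∈ range n, (3 * t * (((k : ℝ) + 1) * bb n (k + 1)) +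
          ρ ^ (k + 1) / ((k : ℝ) + 1) * ‖ps P (k + 1)‖ ^ 2 / t) := by
          apply sum_le_sum
          intro k hk
          exact amgm (bb_nonneg n (k + 1)) (bb_le_one n (k + 1)) (norm_nonneg _) ht0
            (by positivity) (hρk k hk)
      _ = 3 * t * ∑ k ∈ range n, ((k : ℝ) + 1) * bb n (k + 1) +
          (∑ k ∈ range n, ρ ^ (k + 1) / ((k : ℝ) + 1) * ‖ps P (k + 1)‖ ^ 2) / t := by
          rw [sum_add_distrib, ← mul_sum, sum_div]
      _ ≤ 3 * t * (n / 2) + (2 * d * HH P + d + d * Real.log (d + 1)) / t := by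
          apply add_le_add
          · exact mul_le_mul_of_nonneg_left (sum_bb_le n) (by positivity)
          · exact div_le_div_of_nonneg_right hE3 ht0.le
  have e1 : 3 * t * ((n : ℝ) / 2) = d / 4 := by
    rw [ht]; field_simp; ring
  have e2 : (2 * d * HH P + d + d * Real.log (d + 1)) / t =
      12 * n * HH P + 6 * n * (1 + Real.log (d + 1)) := by
    rw [ht]; field_simp; ring
  rw [e1, e2] at hS
  linarith

end Pool.Agent.Y94.LL
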