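import Mathlib
import Pool.Agent.Y94.LL.Main
import Pool.Agent.Y94.LL.Dob

/-!
# The lower bound for the height
-/

set_option autoImplicit false

namespace Pool.Agent.Y94.LL

open Complex Finset Polynomial
open Pool.Agent.W401.SSS

/-- existence of the parameter -/
theorem exists_n {ε : ℝ} (h0 : 0 < ε) (h1 : ε ≤ 1 / 2) : ∃ n : ℕ, 1 ≤ n ∧
    36 ≤ (n : ℝ) * ε ^ 2 ∧ 2 * n * Real.exp (-(n * ε ^ 2 / 16)) ≤ 1 / 4 ∧
    (n : ℝ) ≤ 512 * Real.log (1 / ε) / ε ^ 2 := by
  have hl2 : (0.6931471803 : ℝ) < Real.log 2 := Real.log_two_gt_d9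
  have hL : Real.log 2 ≤ Real.log (1 / ε) :=
    Real.log_le_log (by norm_num) (by rw [le_div_iff₀ h0]; linarith)
  set L := Real.log (1 / ε) with hLd
  have hL0 : 0 < L := by linarith
  have he2 : 0 < ε ^ 2 := by positivity
  have he2' : ε ^ 2 ≤ 1 / 4 := by nlinarith
  set y : ℝ := 256 * L / ε ^ 2 with hy
  have hy1 : 1 ≤ y := by
    rw [hy, le_div_iff₀ he2]
    linarith
  refine ⟨⌈y⌉₊, ?_, ?_, ?_, ?_⟩
  · have : 0 < ⌈y⌉₊ := Nat.ceil_pos.2 (by linarith)
    omega
  · have h2 := Nat.le_ceil y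
    have h3 : y * ε ^ 2 = 256 * L := by rw [hy]; field_simp
    have h4 := mul_le_mul_of_nonneg_right h2 he2.le
    linarith
  · have h2 := Nat.le_ceil y
    have h3 : y * ε ^ 2 = 256 * L := by rw [hy]; field_simp
    have h4 := mul_le_mul_of_nonneg_right h2 he2.le
    have h5 : (⌈y⌉₊ : ℝ) ≤ 2 * y := by
      have := Nat.ceil_lt_add_one (show 0 ≤ y by linarith)
      linarith
    have h6 : Real.exp (-(⌈y⌉₊ * ε ^ 2 / 16)) ≤ ε ^ 16 := by
      have h7 : Real.exp (-(16 * L)) = ε ^ 16 := by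
        rw [hLd, one_div, Real.log_inv]
        have e : -(16 * -Real.log ε) = ((16 : ℕ) : ℝ) * Real.log ε := by push_cast; ring
        rw [e, Real.exp_nat_mul, Real.exp_log h0]
      rw [← h7]
      apply Real.exp_le_exp.2
      linarith
    have h8 : L ≤ 1 / ε := by
      have := Real.log_le_sub_one_of_pos (show 0 < 1 / ε by positivity)
      linarith
    have h9 : (⌈y⌉₊ : ℝ) ≤ 512 * (1 / ε) / ε ^ 2 := by
      refine h5.trans ?_
      rw [hy]
      calc 2 * (256 * L / ε ^ 2) = 512 * L / ε ^ 2 := by ring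
        _ ≤ 512 * (1 / ε) / ε ^ 2 :=
          div_le_div_of_nonneg_right (by linarith) he2.le
    have h10 : ε ^ 13 ≤ (1 / 2 : ℝ) ^ 13 := pow_le_pow_left₀ h0.le h1 13
    calc 2 * (⌈y⌉₊ : ℝ) * Real.exp (-(⌈y⌉₊ * ε ^ 2 / 16)) ≤
        2 * (512 * (1 / ε) / ε ^ 2) * ε ^ 16 := by
          apply mul_le_mul (by linarith) h6 (Real.exp_pos _).le (by positivity)
      _ = 1024 * ε ^ 13 := by field_simp; ring
      _ ≤ 1024 * (1 / 2 : ℝ) ^ 13 := by linarith
      _ ≤ 1 / 4 := by norm_num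
  · have h5 : (⌈y⌉₊ : ℝ) ≤ 2 * y := by
      have := Nat.ceil_lt_add_one (show 0 ≤ y by linarith)
      linarith
    refine h5.trans (le_of_eq ?_)
    rw [hy]; ring

/-- size of the degree in the second case -/
theorem deg_bound {n d L : ℝ} (hn : 1 ≤ n) (hd : 1 ≤ d) (hL : Real.log 2 ≤ L)
    {ε : ℝ} (h0 : 0 < ε) (hLe : L = Real.log (1 / ε)) (hnL : n ≤ 512 * L / ε ^ 2)
    (h : d < 24 * n * (1 + Real.log (d + 1))) :
    Real.log (2 * d) ≤ 37 * L ∧ d ≤ 466944 * L ^ 2 / ε ^ 2 := by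
  have hl2 : (0.6931471803 : ℝ) < Real.log 2 := Real.log_two_gt_d9
  have hL0 : 0 < L := by linarith
  have he2 : 0 < ε ^ 2 := by positivity
  have hy1 : 1 ≤ d + 1 := by linarith
  set s : ℝ := Real.sqrt (d + 1) with hs
  have hs1 : 1 ≤ s := by
    rw [hs]
    exact Real.one_le_sqrt.2 hy1
  have hss : s * s = d + 1 := Real.mul_self_sqrt (by linarith)
  have hlog : Real.log (d + 1) ≤ 2 * (s - 1) := by
    rw [← hss, Real.log_mul (by linarith) (by linarith)]
    have := Real.log_le_sub_one_of_pos (show 0 < s by linarith)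
    linarith
  have h1 : s ≤ 49 * n := by
    have h2 : d < 24 * n * (2 * s) := lt_of_lt_of_le h
      (mul_le_mul_of_nonneg_left (by linarith) (by linarith))
    have h3 : s * s ≤ (49 * n) * s := by
      rw [hss]
      nlinarith
    exact le_of_mul_le_mul_right h3 (by linarith)
  have h2 : d + 1 ≤ 4096 * n ^ 2 := by
    rw [← hss]
    nlinarith
  have h3 : Real.log n ≤ 9 * Real.log 2 + 3 * L := by
    have h4 : n ≤ 512 * (1 / ε) ^ 3 := by
      refine hnL.trans ?_
      have h5 : L ≤ 1 / ε := by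
        have := Real.log_le_sub_one_of_pos (show 0 < 1 / ε by positivity)
        rw [hLe]
        linarith
      calc 512 * L / ε ^ 2 ≤ 512 * (1 / ε) / ε ^ 2 :=
            div_le_div_of_nonneg_right (by linarith) he2.le
        _ = 512 * (1 / ε) ^ 3 := by field_simp
    have h5 := Real.log_le_log (by linarith) h4
    rw [Real.log_mul (by norm_num) (by positivity), Real.log_pow, ← hLe,
      show (512 : ℝ) = 2 ^ 9 by norm_num, Real.log_pow] at h5
    push_cast at h5
    exact h5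
  have h4 : Real.log (d + 1) ≤ 36 * L := by
    have h5 := Real.log_le_log (by linarith) h2
    rw [Real.log_mul (by norm_num) (by positivity), Real.log_pow,
      show (4096 : ℝ) = 2 ^ 12 by norm_num, Real.log_pow] at h5
    push_cast at h5
    linarith
  constructor
  · have h5 : Real.log (2 * d) ≤ Real.log (2 * (d + 1)) :=
      Real.log_le_log (by linarith) (by linarith)
    have h6 : Real.log (2 * (d + 1)) = Real.log 2 + Real.log (d + 1) :=
      Real.log_mul (by norm_num) (by linarith)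
    linarith
  · have h5 : 1 + Real.log (d + 1) ≤ 38 * L := by linarith
    calc d ≤ 24 * n * (1 + Real.log (d + 1)) := h.le
      _ ≤ 24 * n * (38 * L) := mul_le_mul_of_nonneg_left h5 (by linarith)
      _ = (912 * L) * n := by ring
      _ ≤ (912 * L) * (512 * L / ε ^ 2) := mul_le_mul_of_nonneg_left hnL (by positivity)
      _ = 466944 * L ^ 2 / ε ^ 2 := by ring

/-- the lower bound -/
theorem lower : ∃ c : ℝ, 0 < c ∧ ∀ (ζ : ℂ) (ε : ℝ), ‖ζ‖ = 1 → 0 < ε → ε ≤ 1 / 2 →
    ∀ P : ℤ[X], Adm P →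
    (∀ z : ℂ, aeval z P = 0 → z ≠ 0 ∧ (∀ m : ℕ, 0 < m → z ^ m ≠ 1) ∧ ε ≤ ‖z - ζ‖) →
    c * ε ^ 2 / (Real.log (1 / ε)) ^ 5 ≤ HH P / P.natDegree := by
  obtain ⟨c0, hc0, hlow⟩ := low_all
  have hl2 : (0.6931471803 : ℝ) < Real.log 2 := Real.log_two_gt_d9
  have hl20 : 0 < Real.log 2 := by linarith
  refine ⟨min ((Real.log 2) ^ 4 / 32768) (c0 / 50653 / 466944),
    lt_min (by positivity) (by positivity), ?_⟩
  intro ζ ε hζ h0 h1 P hP hroots
  have hL : Real.log 2 ≤ Real.log (1 / ε) :=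
    Real.log_le_log (by norm_num) (by rw [le_div_iff₀ h0]; linarith)
  set L := Real.log (1 / ε) with hLd
  have hL0 : 0 < L := by linarith
  obtain ⟨n, hn1, hn2, hn3, hn4⟩ := exists_n h0 h1
  rw [← hLd] at hn4
  have hn1' : (1 : ℝ) ≤ n := by exact_mod_cast hn1
  have hd1 : (1 : ℝ) ≤ P.natDegree := hP.one_le_deg
  have hd0 : (0 : ℝ) < P.natDegree := by linarith
  have he2 : 0 < ε ^ 2 := by positivity
  by_cases hd : 24 * (n : ℝ) * (1 + Real.log (P.natDegree + 1)) ≤ P.natDegree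
  · have h2 := dichotomy hP (fun z hz => (hroots z hz).1) hζ h0 h1
      (fun z hz => (hroots z hz).2.2) hn2 hn3 hd
    have h3 : 1 / (64 * (n : ℝ)) ≤ HH P / P.natDegree := by
      rw [div_le_div_iff₀ (by positivity) hd0]
      linarith
    refine le_trans ?_ h3
    have h4 : ε ^ 2 / (32768 * L) ≤ 1 / (64 * (n : ℝ)) := by
      rw [div_le_div_iff₀ (by positivity) (by positivity)]
      rw [le_div_iff₀ he2] at hn4
      nlinarith
    refine le_trans ?_ h4
    rw [div_le_div_iff₀ (by positivity) (by positivity)]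
    have h5 : (Real.log 2) ^ 4 ≤ L ^ 4 := pow_le_pow_left₀ hl20.le hL 4
    have h6 : min ((Real.log 2) ^ 4 / 32768) (c0 / 50653 / 466944) ≤ L ^ 4 / 32768 :=
      (min_le_left _ _).trans (div_le_div_of_nonneg_right h5 (by norm_num))
    calc min ((Real.log 2) ^ 4 / 32768) (c0 / 50653 / 466944) * ε ^ 2 * (32768 * L) ≤
        L ^ 4 / 32768 * ε ^ 2 * (32768 * L) := by
          apply mul_le_mul_of_nonneg_right _ (by positivity)
          exact mul_le_mul_of_nonneg_right h6 he2.le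
      _ = ε ^ 2 * L ^ 5 := by ring
  · have hd' := not_le.1 hd
    obtain ⟨g1, g2⟩ := deg_bound hn1' hd1 hL h0 hLd hn4 hd'
    have h2 := hlow P hP (fun z hz => ⟨(hroots z hz).1, (hroots z hz).2.1⟩)
    have hlg0 : 0 < Real.log (2 * P.natDegree) :=
      hl20.trans_le (Real.log_le_log (by norm_num) (by linarith))
    have h3 : c0 / (37 * L) ^ 3 ≤ HH P := by
      refine le_trans ?_ h2
      apply div_le_div_of_nonneg_left hc0.le (pow_pos hlg0 3)
      exact pow_le_pow_left₀ hlg0.le g1 3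
    have h4 : c0 / (37 * L) ^ 3 / (466944 * L ^ 2 / ε ^ 2) ≤ HH P / P.natDegree := by
      apply div_le_div₀ (HH_nonneg hP) h3 hd0 g2
    refine le_trans ?_ h4
    have e : c0 / (37 * L) ^ 3 / (466944 * L ^ 2 / ε ^ 2) =
        (c0 / 50653 / 466944) * ε ^ 2 / L ^ 5 := by
      field_simp
      norm_num
    rw [e]
    apply div_le_div_of_nonneg_right _ (by positivity)
    exact mul_le_mul_of_nonneg_right (min_le_right _ _) he2.le

end Pool.Agent.Y94.LL
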