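import Mathlib
import Pool.Agent.Y94.LL.Low

/-!
# The Lehmer-Langevin constant: definitions and final form of the lower bound
-/

set_option autoImplicit false

namespace Pool.Agent.Y94.LL

open Complex Polynomial
open Pool.Agent.W401.SSS

/-- The Mahler measure of an integer polynomial. -/
noncomputable def MM (P : ℤ[X]) : ℝ := (P.map (Int.castRingHom ℂ)).mahlerMeasure

/-- `P` is, up to sign, the minimal polynomial over the integers of a nonzero algebraic number
which is not a root of unity and all of whose conjugates lie outside `V`. -/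
def Admissible (V : Set ℂ) (P : ℤ[X]) : Prop :=
  Irreducible P ∧ 0 < P.natDegree ∧
    ∀ z : ℂ, aeval z P = 0 → z ≠ 0 ∧ (∀ m : ℕ, 0 < m → z ^ m ≠ 1) ∧ z ∉ V

/-- The Lehmer-Langevin constant of `V`. -/
noncomputable def LL (V : Set ℂ) : ℝ :=
  sInf {x : ℝ | ∃ P : ℤ[X], Admissible V P ∧ x = MM P ^ (1 / (P.natDegree : ℝ))}

/-- The open sector around the negative real axis. -/
def sector (θ : ℝ) : Set ℂ := {z : ℂ | z ≠ 0 ∧ θ < |Complex.arg z|}

theorem log_MM {P : ℤ[X]} (hP : Adm P) : Real.log (MM P) = HH P := by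
  unfold MM
  rw [← logMahlerMeasure_eq_log_MahlerMeasure,
    logMahlerMeasure_eq_log_leadingCoeff_add_sum_log_roots, leadingCoeff_map', Complex.norm_intCast,
    abs_of_pos hP.lc_pos]
  unfold HH
  rw [SS_sum hP]
  unfold rsum rts
  congr 2
  apply Multiset.map_congr rfl
  intro z _
  exact Real.posLog_eq_log_max_one (norm_nonneg _)

theorem MM_neg (P : ℤ[X]) : MM (-P) = MM P := by
  unfold MM
  rw [Polynomial.map_neg, ← neg_one_mul, mahlerMeasure_mul]
  have : (-1 : ℂ[X]) = C (-1) := by simp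
  rw [this, mahlerMeasure_const]
  simp

theorem MM_pos {P : ℤ[X]} (hP : P ≠ 0) : 0 < MM P :=
  mahlerMeasure_pos_of_ne_zero (map_ne_zero hP)

/-- normalisation of the sign -/
theorem exists_adm {V : Set ℂ} {P : ℤ[X]} (hP : Admissible V P) : ∃ Q : ℤ[X], Adm Q ∧
    MM Q = MM P ∧ Q.natDegree = P.natDegree ∧
    ∀ z : ℂ, aeval z Q = 0 → z ≠ 0 ∧ (∀ m : ℕ, 0 < m → z ^ m ≠ 1) ∧ z ∉ V := by
  obtain ⟨h1, h2, h3⟩ := hP
  by_cases h : 0 < P.leadingCoeff
  · exact ⟨P, ⟨h1, h2, h⟩, rfl, rfl, h3⟩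
  · refine ⟨-P, ⟨?_, ?_, ?_⟩, MM_neg P, natDegree_neg P, ?_⟩
    · exact (Associated.refl P).neg_left.irreducible_iff.2 h1
    · rw [natDegree_neg]; exact h2
    · rw [leadingCoeff_neg]
      have h4 : P.leadingCoeff ≠ 0 := leadingCoeff_ne_zero.2 h1.ne_zero
      omega
    · intro z hz
      rw [map_neg, neg_eq_zero] at hz
      exact h3 z hz

/-- the lower bound for every set containing a disc -/
theorem lower_V : ∃ c : ℝ, 0 < c ∧ ∀ (V : Set ℂ) (ζ : ℂ) (ε : ℝ), ‖ζ‖ = 1 → 0 < ε → ε ≤ 1 / 2 →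
    Metric.ball ζ ε ⊆ V → ∀ P : ℤ[X], Admissible V P →
    Real.exp (c * ε ^ 2 / (Real.log (1 / ε)) ^ 5) ≤ MM P ^ (1 / (P.natDegree : ℝ)) := by
  obtain ⟨c, hc, h⟩ := lower
  refine ⟨c, hc, ?_⟩
  intro V ζ ε hζ h0 h1 hV P hP
  have hP0 : P ≠ 0 := hP.1.ne_zero
  obtain ⟨Q, hQ, hM, hd, hr⟩ := exists_adm hP
  have h2 := h ζ ε hζ h0 h1 Q hQ (by
    intro z hz
    obtain ⟨g1, g2, g3⟩ := hr z hz
    refine ⟨g1, g2, ?_⟩
    by_contra hcon
    exact g3 (hV (by rw [Metric.mem_ball, Complex.dist_eq]; exact not_le.1 hcon)))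
  rw [← log_MM hQ, hM, hd] at h2
  have h3 : MM P ^ (1 / (P.natDegree : ℝ)) = Real.exp (Real.log (MM P) / P.natDegree) := by
    rw [Real.rpow_def_of_pos (MM_pos hP0)]
    congr 1
    ring
  rw [h3]
  exact Real.exp_le_exp.2 h2

/-- the disc in the sector -/
theorem ball_sector {θ : ℝ} (h0 : Real.pi - 1 ≤ θ) (h1 : θ < Real.pi) :
    Metric.ball (-1 : ℂ) ((Real.pi - θ) / 2) ⊆ sector θ := by
  intro z hz
  rw [Metric.mem_ball, Complex.dist_eq, sub_neg_eq_add] at hz
  set x := Real.pi - θ with hx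
  have hx0 : 0 < x := by linarith
  have hx1 : x ≤ 1 := by linarith
  constructor
  · rintro rfl
    rw [zero_add, norm_one] at hz
    linarith
  · by_contra hcon
    have hle := not_lt.1 hcon
    have hpi := Real.pi_gt_three
    have hcos : -Real.cos x ≤ Real.cos (Complex.arg z) := by
      have e : -Real.cos x = Real.cos θ := by
        rw [hx, Real.cos_pi_sub, neg_neg]
      rw [e, ← Real.cos_abs (Complex.arg z)]
      exact Real.cos_le_cos_of_nonneg_of_le_pi (abs_nonneg _) h1.le hle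
    have hre : ‖z‖ * Real.cos (Complex.arg z) = z.re := Complex.norm_mul_cos_arg z
    have hsq : ‖z + 1‖ ^ 2 = ‖z‖ ^ 2 + 2 * z.re + 1 := by
      rw [Complex.sq_norm, Complex.sq_norm, Complex.normSq_apply, Complex.normSq_apply]
      simp only [Complex.add_re, Complex.add_im, Complex.one_re, Complex.one_im]
      ring
    have h2 : Real.sin x ^ 2 ≤ ‖z + 1‖ ^ 2 := by
      rw [hsq, Real.sin_sq, ← hre]
      have h3 := mul_le_mul_of_nonneg_left hcos (norm_nonneg z)
      nlinarith [sq_nonneg (‖z‖ - Real.cos x)]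
    have h3 : x / 2 ≤ Real.sin x := by
      have := Real.mul_le_sin hx0.le (by linarith)
      refine le_trans ?_ this
      have h4 : (1 : ℝ) / 2 ≤ 2 / Real.pi := by
        rw [div_le_div_iff₀ (by norm_num) (by linarith)]
        linarith [Real.pi_le_four]
      nlinarith
    have h4 : Real.sin x ≤ ‖z + 1‖ := by
      apply le_of_sq_le_sq h2 (norm_nonneg _)
    linarith

/-- there are admissible polynomials for the sector -/
theorem adm_two {θ : ℝ} (h0 : 0 < θ) : Admissible (sector θ) (X - C 2) := by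
  refine ⟨?_, ?_, ?_⟩
  · exact (Polynomial.monic_X_sub_C (2 : ℤ)).irreducible_of_degree_eq_one (degree_X_sub_C 2)
  · rw [natDegree_X_sub_C]; norm_num
  · intro z hz
    have e : z = 2 := by
      rw [map_sub, aeval_X, aeval_C] at hz
      simpa [sub_eq_zero] using hz
    subst e
    refine ⟨two_ne_zero, ?_, ?_⟩
    · intro m hm h
      have h2 := congrArg norm h
      rw [norm_pow, norm_one, Complex.norm_ofNat] at h2
      have h3 : (1 : ℝ) < 2 ^ m := one_lt_pow₀ (by norm_num) (by omega)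
      linarith
    · rintro ⟨_, h2⟩
      have h3 : Complex.arg 2 = 0 := by
        have := Complex.arg_ofReal_of_nonneg (show (0 : ℝ) ≤ 2 by norm_num)
        simpa using this
      rw [h3, abs_zero] at h2
      linarith

/-- the lower bound for sectors -/
theorem lower_sector : ∃ c : ℝ, 0 < c ∧ ∀ θ : ℝ, Real.pi - 1 ≤ θ → θ < Real.pi →
    Real.exp (c * (Real.pi - θ) ^ 2 / (Real.log (2 / (Real.pi - θ))) ^ 5) ≤ LL (sector θ) := by
  obtain ⟨c, hc, h⟩ := lower_V
  refine ⟨c / 4, by positivity, ?_⟩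
  intro θ h0 h1
  have hpi := Real.pi_gt_three
  apply le_csInf
  · exact ⟨_, _, adm_two (by linarith), rfl⟩
  · rintro x ⟨P, hP, rfl⟩
    have h2 := h (sector θ) (-1) ((Real.pi - θ) / 2) (by simp) (by linarith) (by linarith)
      (ball_sector h0 h1) P hP
    refine le_trans (le_of_eq ?_) h2
    congr 1
    rw [one_div_div]
    ring

end Pool.Agent.Y94.LL
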