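import Mathlib

/-!
# A product of cyclotomic polynomials of odd order which is small on average
-/

set_option autoImplicit false

namespace Pool.Agent.Y94.LL

open Complex Finset Real

theorem hs_log {x : ℂ} (hx : ‖x‖ < 1) :
    HasSum (fun k : ℕ => (x ^ k / (k : ℂ)).re) (-Real.log ‖1 - x‖) := by
  have h2 := Complex.hasSum_re (Complex.hasSum_taylorSeries_neg_log hx)
  simpa [Complex.log_re] using h2

theorem series_ineq (M : ℕ) {z : ℂ} (hz : ‖z‖ = 1) {ρ : ℝ} (h0 : 0 ≤ ρ) (h1 : ρ < 1) :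
    ∑ a ∈ range M, ∑ b ∈ range M, Real.log ‖1 - (ρ : ℂ) * z ^ (2 * a + 2 * b + 1)‖ ≤
      ∑ a ∈ range M, ∑ b ∈ range M,
        -Real.log ‖1 - (ρ : ℂ) * (z ^ (2 * a) * ((starRingEnd ℂ) z) ^ (2 * b))‖ ∧
    0 ≤ ∑ a ∈ range M, ∑ b ∈ range M,
        -Real.log ‖1 - (ρ : ℂ) * (z ^ (2 * a) * ((starRingEnd ℂ) z) ^ (2 * b))‖ := by
  have hρn : ‖(ρ : ℂ)‖ = ρ := by rw [Complex.norm_real, Real.norm_eq_abs, abs_of_nonneg h0]
  have hL : HasSum (fun k : ℕ => ∑ a ∈ range M, ∑ b ∈ range M,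
      -(((ρ : ℂ) * z ^ (2 * a + 2 * b + 1)) ^ k / (k : ℂ)).re)
      (∑ a ∈ range M, ∑ b ∈ range M, Real.log ‖1 - (ρ : ℂ) * z ^ (2 * a + 2 * b + 1)‖) := by
    refine hasSum_sum fun a _ => hasSum_sum fun b _ => ?_
    have h := (hs_log (x := (ρ : ℂ) * z ^ (2 * a + 2 * b + 1)) (by
      rw [norm_mul, norm_pow, hz, one_pow, mul_one, hρn]; exact h1)).neg
    rwa [neg_neg] at h
  have hR : HasSum (fun k : ℕ => ∑ a ∈ range M, ∑ b ∈ range M,
      (((ρ : ℂ) * (z ^ (2 * a) * ((starRingEnd ℂ) z) ^ (2 * b))) ^ k / (k : ℂ)).re)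
      (∑ a ∈ range M, ∑ b ∈ range M,
        -Real.log ‖1 - (ρ : ℂ) * (z ^ (2 * a) * ((starRingEnd ℂ) z) ^ (2 * b))‖) := by
    refine hasSum_sum fun a _ => hasSum_sum fun b _ => ?_
    exact hs_log (by
      rw [norm_mul, norm_mul, norm_pow, norm_pow, RCLike.norm_conj, hz, one_pow, one_pow,
        mul_one, mul_one, hρn]
      exact h1)
  set T : ℕ → ℂ := fun k => ∑ a ∈ range M, z ^ (2 * a * k) with hT
  have eL : ∀ k : ℕ, ∑ a ∈ range M, ∑ b ∈ range M,
      -(((ρ : ℂ) * z ^ (2 * a + 2 * b + 1)) ^ k / (k : ℂ)).re =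
      -(ρ ^ k / (k : ℝ) * (z ^ k * (T k * T k)).re) := by
    intro k
    have e1 : ∑ a ∈ range M, ∑ b ∈ range M,
        (((ρ : ℂ) * z ^ (2 * a + 2 * b + 1)) ^ k / (k : ℂ)) =
        ((ρ ^ k / (k : ℝ) : ℝ) : ℂ) * (z ^ k * (T k * T k)) := by
      rw [hT]
      simp only []
      rw [sum_mul_sum, mul_sum, mul_sum]
      apply sum_congr rfl
      intro a _
      rw [mul_sum, mul_sum]
      apply sum_congr rfl
      intro b _
      rw [mul_pow, ← pow_mul, show (2 * a + 2 * b + 1) * k = 2 * a * k + 2 * b * k + k by ring,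
        pow_add, pow_add]
      push_cast
      ring
    have e2 := congrArg Complex.re e1
    rw [Complex.re_ofReal_mul, Complex.re_sum] at e2
    rw [← e2, ← sum_neg_distrib]
    apply sum_congr rfl
    intro a _
    rw [Complex.re_sum, ← sum_neg_distrib]
  have eR : ∀ k : ℕ, ∑ a ∈ range M, ∑ b ∈ range M,
      (((ρ : ℂ) * (z ^ (2 * a) * ((starRingEnd ℂ) z) ^ (2 * b))) ^ k / (k : ℂ)).re =
      ρ ^ k / (k : ℝ) * ‖T k‖ ^ 2 := by
    intro k
    have e1 : ∑ a ∈ range M, ∑ b ∈ range M,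
        (((ρ : ℂ) * (z ^ (2 * a) * ((starRingEnd ℂ) z) ^ (2 * b))) ^ k / (k : ℂ)) =
        ((ρ ^ k / (k : ℝ) * ‖T k‖ ^ 2 : ℝ) : ℂ) := by
      push_cast
      rw [← Complex.conj_mul', mul_comm ((starRingEnd ℂ) (T k)), hT]
      simp only []
      rw [map_sum, sum_mul_sum, mul_sum]
      apply sum_congr rfl
      intro a _
      rw [mul_sum]
      apply sum_congr rfl
      intro b _
      rw [mul_pow, mul_pow, map_pow, ← pow_mul, ← pow_mul]
      ring
    have e2 := congrArg Complex.re e1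
    rw [Complex.ofReal_re, Complex.re_sum] at e2
    rw [← e2]
    apply sum_congr rfl
    intro a _
    rw [Complex.re_sum]
  constructor
  · refine hasSum_le (fun k => ?_) hL hR
    rw [eL, eR]
    have h2 : -(z ^ k * (T k * T k)).re ≤ ‖T k‖ ^ 2 := by
      have h3 := Complex.abs_re_le_norm (z ^ k * (T k * T k))
      rw [norm_mul, norm_mul, norm_pow, hz, one_pow, one_mul] at h3
      have h4 := neg_abs_le (z ^ k * (T k * T k)).re
      have h5 := neg_le_abs (z ^ k * (T k * T k)).re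
      rw [sq]
      linarith
    have h3 : 0 ≤ ρ ^ k / (k : ℝ) := by positivity
    have h4 := mul_le_mul_of_nonneg_left h2 h3
    linarith
  · refine hasSum_le (fun k => ?_) hasSum_zero hR
    rw [eR]
    positivity

theorem avg_pow {n : ℕ} (hn : 1 ≤ n) {ρ : ℝ} (h0 : 0 ≤ ρ) (h1 : ρ < 1) :
    circleAverage (fun z : ℂ => Real.log ‖1 - (ρ : ℂ) * z ^ n‖) 0 1 = 0 := by
  have hh : InnerProductSpace.HarmonicOnNhd (fun z : ℂ => Real.log ‖1 - (ρ : ℂ) * z ^ n‖)
      (Metric.closedBall 0 |(1 : ℝ)|) := by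
    intro z hz
    rw [abs_one, Metric.mem_closedBall, dist_zero_right] at hz
    have hne : 1 - (ρ : ℂ) * z ^ n ≠ 0 := by
      intro h
      have h2 : (1 : ℂ) = (ρ : ℂ) * z ^ n := sub_eq_zero.1 h
      have h3 := congrArg norm h2
      rw [norm_one, norm_mul, norm_pow, Complex.norm_real, Real.norm_eq_abs,
        abs_of_nonneg h0] at h3
      have h4 : ‖z‖ ^ n ≤ 1 := pow_le_one₀ (norm_nonneg _) hz
      nlinarith
    have ha : AnalyticAt ℂ (fun z : ℂ => 1 - (ρ : ℂ) * z ^ n) z := by fun_prop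
    exact AnalyticAt.harmonicAt_log_norm ha hne
  rw [InnerProductSpace.HarmonicOnNhd.circleAverage_eq hh]
  simp [zero_pow (by omega : n ≠ 0)]

theorem avg_pair (a b : ℕ) {ρ : ℝ} (h0 : 0 ≤ ρ) (h1 : ρ < 1) :
    circleAverage (fun z : ℂ =>
      Real.log ‖1 - (ρ : ℂ) * (z ^ (2 * a) * ((starRingEnd ℂ) z) ^ (2 * b))‖) 0 1 =
      if b = a then Real.log (1 - ρ) else 0 := by
  have hconj : ∀ z ∈ Metric.sphere (0 : ℂ) |(1 : ℝ)|, z * (starRingEnd ℂ) z = 1 := by
    intro z hz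
    rw [abs_one, mem_sphere_zero_iff_norm] at hz
    rw [Complex.mul_conj, Complex.normSq_eq_norm_sq, hz]
    simp
  rcases lt_trichotomy a b with h | h | h
  · rw [if_neg (by omega)]
    have e : Set.EqOn (fun z : ℂ =>
        Real.log ‖1 - (ρ : ℂ) * (z ^ (2 * a) * ((starRingEnd ℂ) z) ^ (2 * b))‖)
        (fun z : ℂ => Real.log ‖1 - (ρ : ℂ) * z ^ (2 * (b - a))‖)
        (Metric.sphere (0 : ℂ) |(1 : ℝ)|) := by
      intro z hz
      have h2 := hconj z hz
      have h3 : z ^ (2 * a) * ((starRingEnd ℂ) z) ^ (2 * b) =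
          (starRingEnd ℂ) (z ^ (2 * (b - a))) := by
        conv_lhs => rw [show 2 * b = 2 * a + 2 * (b - a) by omega]
        rw [pow_add, ← mul_assoc, ← mul_pow, h2, one_pow, one_mul, map_pow]
      simp only []
      rw [h3]
      have h4 : (1 : ℂ) - (ρ : ℂ) * (starRingEnd ℂ) (z ^ (2 * (b - a))) =
          (starRingEnd ℂ) (1 - (ρ : ℂ) * z ^ (2 * (b - a))) := by
        rw [map_sub, map_one, map_mul, Complex.conj_ofReal]
      rw [h4, RCLike.norm_conj]
    rw [circleAverage_congr_sphere e]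
    exact avg_pow (by omega) h0 h1
  · subst h
    rw [if_pos rfl]
    have e : Set.EqOn (fun z : ℂ =>
        Real.log ‖1 - (ρ : ℂ) * (z ^ (2 * a) * ((starRingEnd ℂ) z) ^ (2 * a))‖)
        (fun _ : ℂ => Real.log (1 - ρ)) (Metric.sphere (0 : ℂ) |(1 : ℝ)|) := by
      intro z hz
      have h2 := hconj z hz
      simp only []
      rw [← mul_pow, h2, one_pow, mul_one]
      have h3 : (1 : ℂ) - (ρ : ℂ) = ((1 - ρ : ℝ) : ℂ) := by push_cast; ring
      rw [h3, Complex.norm_real, Real.norm_eq_abs, abs_of_pos (by linarith)]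
    rw [circleAverage_congr_sphere e, circleAverage_const]
  · rw [if_neg (by omega)]
    have e : Set.EqOn (fun z : ℂ =>
        Real.log ‖1 - (ρ : ℂ) * (z ^ (2 * a) * ((starRingEnd ℂ) z) ^ (2 * b))‖)
        (fun z : ℂ => Real.log ‖1 - (ρ : ℂ) * z ^ (2 * (a - b))‖)
        (Metric.sphere (0 : ℂ) |(1 : ℝ)|) := by
      intro z hz
      have h2 := hconj z hz
      have h3 : z ^ (2 * a) * ((starRingEnd ℂ) z) ^ (2 * b) = z ^ (2 * (a - b)) := by
        conv_lhs => rw [show 2 * a = 2 * (a - b) + 2 * b by omega]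
        rw [pow_add, mul_assoc, ← mul_pow, h2, one_pow, mul_one]
      simp only []
      rw [h3]
    rw [circleAverage_congr_sphere e]
    exact avg_pow (by omega) h0 h1

theorem int_pair (a b : ℕ) {ρ : ℝ} (h0 : 0 ≤ ρ) (h1 : ρ < 1) :
    CircleIntegrable (fun z : ℂ =>
      Real.log ‖1 - (ρ : ℂ) * (z ^ (2 * a) * ((starRingEnd ℂ) z) ^ (2 * b))‖) 0 1 := by
  apply ContinuousOn.circleIntegrable'
  apply ContinuousOn.log
  · apply Continuous.continuousOn
    have hc : Continuous (starRingEnd ℂ) := Complex.continuous_conj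
    fun_prop
  · intro z hz
    rw [abs_one, mem_sphere_zero_iff_norm] at hz
    rw [norm_ne_zero_iff]
    intro h
    have h2 : (1 : ℂ) = (ρ : ℂ) * (z ^ (2 * a) * ((starRingEnd ℂ) z) ^ (2 * b)) :=
      sub_eq_zero.1 h
    have h3 := congrArg norm h2
    rw [norm_one, norm_mul, norm_mul, norm_pow, norm_pow, RCLike.norm_conj, hz, one_pow, one_pow,
      Complex.norm_real, Real.norm_eq_abs, abs_of_nonneg h0] at h3
    linarith

/-- the majorant -/
noncomputable def maj (M : ℕ) (ρ : ℝ) (z : ℂ) : ℝ :=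
  (M : ℝ) ^ 2 * Real.log (2 / (1 + ρ)) +
    ∑ a ∈ range M, ∑ b ∈ range M,
      -Real.log ‖1 - (ρ : ℂ) * (z ^ (2 * a) * ((starRingEnd ℂ) z) ^ (2 * b))‖

theorem maj_int (M : ℕ) {ρ : ℝ} (h0 : 0 ≤ ρ) (h1 : ρ < 1) : CircleIntegrable (maj M ρ) 0 1 := by
  unfold maj
  apply CircleIntegrable.add (circleIntegrable_const _ _ _)
  apply CircleIntegrable.fun_sum
  intro a _
  apply CircleIntegrable.fun_sum
  intro b _
  exact (int_pair a b h0 h1).neg

theorem maj_avg (M : ℕ) {ρ : ℝ} (h0 : 0 ≤ ρ) (h1 : ρ < 1) :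
    circleAverage (maj M ρ) 0 1 =
      (M : ℝ) ^ 2 * Real.log (2 / (1 + ρ)) + M * Real.log (1 / (1 - ρ)) := by
  have hN : ∀ a b : ℕ, CircleIntegrable (fun z : ℂ =>
      -Real.log ‖1 - (ρ : ℂ) * (z ^ (2 * a) * ((starRingEnd ℂ) z) ^ (2 * b))‖) 0 1 :=
    fun a b => (int_pair a b h0 h1).neg
  have hS : ∀ a : ℕ, CircleIntegrable (fun z : ℂ => ∑ b ∈ range M,
      -Real.log ‖1 - (ρ : ℂ) * (z ^ (2 * a) * ((starRingEnd ℂ) z) ^ (2 * b))‖) 0 1 :=
    fun a => CircleIntegrable.fun_sum _ fun b _ => hN a b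
  have hSS : CircleIntegrable (fun z : ℂ => ∑ a ∈ range M, ∑ b ∈ range M,
      -Real.log ‖1 - (ρ : ℂ) * (z ^ (2 * a) * ((starRingEnd ℂ) z) ^ (2 * b))‖) 0 1 :=
    CircleIntegrable.fun_sum _ fun a _ => hS a
  have hadd := circleAverage_fun_add (c := (0 : ℂ)) (R := 1)
    (circleIntegrable_const ((M : ℝ) ^ 2 * Real.log (2 / (1 + ρ))) (0 : ℂ) 1) hSS
  have hsum := circleAverage_fun_sum (c := (0 : ℂ)) (R := 1) (s := range M) fun a _ => hS a
  change circleAverage (fun z : ℂ => (M : ℝ) ^ 2 * Real.log (2 / (1 + ρ)) +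
    ∑ a ∈ range M, ∑ b ∈ range M,
      -Real.log ‖1 - (ρ : ℂ) * (z ^ (2 * a) * ((starRingEnd ℂ) z) ^ (2 * b))‖) 0 1 = _
  rw [hadd, hsum, circleAverage_const]
  congr 1
  have e : ∀ a ∈ range M, circleAverage (fun z : ℂ => ∑ b ∈ range M,
      -Real.log ‖1 - (ρ : ℂ) * (z ^ (2 * a) * ((starRingEnd ℂ) z) ^ (2 * b))‖) 0 1 =
      Real.log (1 / (1 - ρ)) := by
    intro a ha
    have hsum2 := circleAverage_fun_sum (c := (0 : ℂ)) (R := 1) (s := range M) fun b _ => hN a b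
    rw [hsum2]
    have e2 : ∀ b ∈ range M, circleAverage (fun z : ℂ =>
        -Real.log ‖1 - (ρ : ℂ) * (z ^ (2 * a) * ((starRingEnd ℂ) z) ^ (2 * b))‖) 0 1 =
        if b = a then Real.log (1 / (1 - ρ)) else 0 := by
      intro b _
      have h3 := circleAverage_fun_smul (𝕜 := ℝ) (a := (-1 : ℝ)) (c := (0 : ℂ)) (R := 1)
        (f := fun z : ℂ =>
          Real.log ‖1 - (ρ : ℂ) * (z ^ (2 * a) * ((starRingEnd ℂ) z) ^ (2 * b))‖)
      simp only [smul_eq_mul, neg_one_mul] at h3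
      rw [h3, avg_pair a b h0 h1]
      split_ifs
      · rw [one_div, Real.log_inv]
      · simp
    rw [sum_congr rfl e2, sum_ite_eq', if_pos ha]
  rw [sum_congr rfl e, sum_const, card_range, nsmul_eq_mul]

end Pool.Agent.Y94.LL
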