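import Mathlib
import Pool.Agent.Y94.LL.Up1
import Pool.Agent.Y94.LL.Fin

/-!
# The polynomial and its values
-/

set_option autoImplicit false

namespace Pool.Agent.Y94.LL

open Complex Finset Polynomial

/-- the product -/
noncomputable def FF (M : ℕ) : ℤ[X] :=
  ∏ a ∈ range M, ∏ b ∈ range M, (X ^ (2 * a + 2 * b + 1) - C 1)

theorem FF_monic (M : ℕ) : (FF M).Monic :=
  monic_prod_of_monic _ _ fun _ _ => monic_prod_of_monic _ _ fun _ _ =>
    monic_X_pow_sub_C 1 (by omega)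

theorem FF_natDegree (M : ℕ) :
    (FF M).natDegree = ∑ a ∈ range M, ∑ b ∈ range M, (2 * a + 2 * b + 1) := by
  unfold FF
  rw [natDegree_prod_of_monic _ _ fun _ _ => monic_prod_of_monic _ _ fun _ _ =>
    monic_X_pow_sub_C 1 (by omega)]
  apply sum_congr rfl
  intro a _
  rw [natDegree_prod_of_monic _ _ fun _ _ => monic_X_pow_sub_C 1 (by omega)]
  apply sum_congr rfl
  intro b _
  exact natDegree_X_pow_sub_C

theorem deg_ge (M : ℕ) (hM : 1 ≤ M) : (M : ℝ) ^ 3 ≤ ((FF M).natDegree : ℝ) := by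
  rw [FF_natDegree]
  have h1 : ∀ m : ℕ, ∑ a ∈ range m, (2 * (a : ℝ)) = (m : ℝ) ^ 2 - m := by
    intro m
    induction m with
    | zero => simp
    | succ m ih => rw [sum_range_succ, ih]; push_cast; ring
  push_cast
  have h2 : ∑ a ∈ range M, ∑ b ∈ range M, (2 * (a : ℝ) + 2 * (b : ℝ) + 1) =
      2 * (M : ℝ) * ((M : ℝ) ^ 2 - M) + (M : ℝ) ^ 2 := by
    simp only [sum_add_distrib, sum_const, card_range, nsmul_eq_mul, ← mul_sum]
    have h3 := h1 M
    rw [← mul_sum] at h3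
    rw [h3]
    ring
  rw [h2]
  have h4 : (1 : ℝ) ≤ M := by exact_mod_cast hM
  nlinarith [sq_nonneg ((M : ℝ) - 1), mul_nonneg (sub_nonneg.2 h4) (sq_nonneg (M : ℝ))]

theorem FF_aeval (M : ℕ) (z : ℂ) : aeval z (FF M) =
    ∏ a ∈ range M, ∏ b ∈ range M, (z ^ (2 * a + 2 * b + 1) - 1) := by
  unfold FF
  rw [map_prod]
  apply prod_congr rfl
  intro a _
  rw [map_prod]
  apply prod_congr rfl
  intro b _
  simp

theorem re_pow_neg {z : ℂ} (hz : z ≠ 0) {x : ℝ} (hx : Real.pi - x < |Complex.arg z|) {i : ℕ}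
    (hi : ((2 * i + 1 : ℕ) : ℝ) * x ≤ Real.pi / 2) (hx0 : 0 < x) :
    (z ^ (2 * i + 1)).re < 0 := by
  have hzn : 0 < ‖z‖ := norm_pos_iff.2 hz
  have h1 : z ^ (2 * i + 1) = ((‖z‖ ^ (2 * i + 1) : ℝ) : ℂ) *
      Complex.exp (((((2 * i + 1 : ℕ) : ℝ) * Complex.arg z : ℝ) : ℂ) * Complex.I) := by
    conv_lhs => rw [← Complex.norm_mul_exp_arg_mul_I z]
    rw [mul_pow, ← Complex.exp_nat_mul]
    push_cast
    congr 2
    ring
  rw [h1, Complex.re_ofReal_mul, Complex.exp_ofReal_mul_I_re]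
  have h2 : Real.cos (((2 * i + 1 : ℕ) : ℝ) * Complex.arg z) < 0 := by
    rw [← Real.cos_abs, abs_mul, abs_of_nonneg (Nat.cast_nonneg _)]
    set φ : ℝ := Real.pi - |Complex.arg z| with hφ
    have hφ0 : 0 ≤ φ := by
      have := Complex.abs_arg_le_pi z
      linarith
    have hφ1 : φ < x := by linarith
    have e : ((2 * i + 1 : ℕ) : ℝ) * |Complex.arg z| =
        (Real.pi - ((2 * i + 1 : ℕ) : ℝ) * φ) + (i : ℝ) * (2 * Real.pi) := by
      rw [hφ]
      push_cast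
      ring
    rw [e, Real.cos_add_nat_mul_two_pi, Real.cos_pi_sub, neg_neg_iff_pos]
    have hc : (0 : ℝ) < ((2 * i + 1 : ℕ) : ℝ) := by positivity
    have h4 : ((2 * i + 1 : ℕ) : ℝ) * φ < ((2 * i + 1 : ℕ) : ℝ) * x :=
      mul_lt_mul_of_pos_left hφ1 hc
    apply Real.cos_pos_of_mem_Ioo
    constructor
    · have : 0 ≤ ((2 * i + 1 : ℕ) : ℝ) * φ := by positivity
      linarith [Real.pi_pos]
    · linarith
  exact mul_neg_of_pos_of_neg (pow_pos hzn _) h2

theorem FF_big {M : ℕ} (hM : 1 ≤ M) {x : ℝ} (hx0 : 0 < x) (hx : 4 * (M : ℝ) * x ≤ Real.pi / 2)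
    {z : ℂ} (hz : z ≠ 0) (hzx : Real.pi - x < |Complex.arg z|) : 1 < ‖aeval z (FF M)‖ := by
  rw [FF_aeval, norm_prod]
  have hfac : ∀ a ∈ range M, ∀ b ∈ range M, 1 < ‖z ^ (2 * a + 2 * b + 1) - 1‖ := by
    intro a ha b hb
    rw [mem_range] at ha hb
    have h1 := re_pow_neg hz hzx (i := a + b) (by
      refine le_trans (mul_le_mul_of_nonneg_right ?_ hx0.le) hx
      have : 2 * (a + b) + 1 ≤ 4 * M := by omega
      exact_mod_cast this) hx0
    rw [show 2 * (a + b) + 1 = 2 * a + 2 * b + 1 by ring] at h1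
    have h2 := Complex.abs_re_le_norm (z ^ (2 * a + 2 * b + 1) - 1)
    rw [Complex.sub_re, Complex.one_re] at h2
    have h3 := neg_le_abs ((z ^ (2 * a + 2 * b + 1)).re - 1)
    linarith
  have hne : (range M).Nonempty := ⟨0, mem_range.2 (by omega)⟩
  have h1 : ∀ a ∈ range M, 1 < ‖∏ b ∈ range M, (z ^ (2 * a + 2 * b + 1) - 1)‖ := by
    intro a ha
    rw [norm_prod]
    calc (1 : ℝ) = ∏ _b ∈ range M, (1 : ℝ) := by simp
      _ < ∏ b ∈ range M, ‖z ^ (2 * a + 2 * b + 1) - 1‖ :=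
        prod_lt_prod_of_nonempty (fun _ _ => one_pos) (fun b hb => hfac a ha b hb) hne
  calc (1 : ℝ) = ∏ _a ∈ range M, (1 : ℝ) := by simp
    _ < ∏ a ∈ range M, ‖∏ b ∈ range M, (z ^ (2 * a + 2 * b + 1) - 1)‖ :=
      prod_lt_prod_of_nonempty (fun _ _ => one_pos) h1 hne

/-- the pointwise bound on the circle -/
theorem FF_circle (M : ℕ) {ρ : ℝ} (h0 : 0 ≤ ρ) (h1 : ρ < 1) {z : ℂ} (hz : ‖z‖ = 1) :
    Real.log (max 1 ‖aeval z (FF M)‖) ≤ maj M ρ z := by
  obtain ⟨hs1, hs2⟩ := series_ineq M hz h0 h1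
  have hr : 0 ≤ Real.log (2 / (1 + ρ)) := Real.log_nonneg (by
    rw [le_div_iff₀ (by linarith)]; linarith)
  have hmaj0 : 0 ≤ maj M ρ z := by
    unfold maj
    have : 0 ≤ (M : ℝ) ^ 2 * Real.log (2 / (1 + ρ)) := by positivity
    linarith
  rcases le_total ‖aeval z (FF M)‖ 1 with h | h
  · rw [max_eq_left h, Real.log_one]
    exact hmaj0
  · rw [max_eq_right h]
    have hne : aeval z (FF M) ≠ 0 := by
      intro h2
      rw [h2, norm_zero] at h
      linarith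
    have hfne : ∀ a ∈ range M, ∀ b ∈ range M, z ^ (2 * a + 2 * b + 1) - 1 ≠ 0 := by
      rw [FF_aeval, prod_ne_zero_iff] at hne
      intro a ha b hb
      exact (prod_ne_zero_iff.1 (hne a ha)) b hb
    have e1 : Real.log ‖aeval z (FF M)‖ =
        ∑ a ∈ range M, ∑ b ∈ range M, Real.log ‖z ^ (2 * a + 2 * b + 1) - 1‖ := by
      rw [FF_aeval, norm_prod, Real.log_prod]
      · apply sum_congr rfl
        intro a ha
        rw [norm_prod, Real.log_prod]
        intro b hb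
        exact norm_ne_zero_iff.2 (hfne a ha b hb)
      · intro a ha
        exact norm_ne_zero_iff.2 (prod_ne_zero_iff.2 fun b hb => hfne a ha b hb)
    have e2 : ∀ a ∈ range M, ∀ b ∈ range M, Real.log ‖z ^ (2 * a + 2 * b + 1) - 1‖ ≤
        Real.log (2 / (1 + ρ)) + Real.log ‖1 - (ρ : ℂ) * z ^ (2 * a + 2 * b + 1)‖ := by
      intro a ha b hb
      have hu : ‖z ^ (2 * a + 2 * b + 1)‖ ≤ 1 := by rw [norm_pow, hz, one_pow]
      have h2 := pair_two hu h0 h1.le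
      rw [norm_sub_rev] at h2
      have hpos : 0 < ‖z ^ (2 * a + 2 * b + 1) - 1‖ := norm_pos_iff.2 (hfne a ha b hb)
      have hN : 0 < ‖1 - (ρ : ℂ) * z ^ (2 * a + 2 * b + 1)‖ := by
        by_contra hcon
        have hz0 : ‖1 - (ρ : ℂ) * z ^ (2 * a + 2 * b + 1)‖ = 0 :=
          le_antisymm (not_lt.1 hcon) (norm_nonneg _)
        rw [hz0, mul_zero] at h2
        linarith
      rw [← Real.log_mul (by positivity) hN.ne']
      exact Real.log_le_log hpos h2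
    rw [e1]
    unfold maj
    calc ∑ a ∈ range M, ∑ b ∈ range M, Real.log ‖z ^ (2 * a + 2 * b + 1) - 1‖ ≤
        ∑ a ∈ range M, ∑ b ∈ range M, (Real.log (2 / (1 + ρ)) +
          Real.log ‖1 - (ρ : ℂ) * z ^ (2 * a + 2 * b + 1)‖) :=
          sum_le_sum fun a ha => sum_le_sum fun b hb => e2 a ha b hb
      _ = (M : ℝ) ^ 2 * Real.log (2 / (1 + ρ)) + ∑ a ∈ range M, ∑ b ∈ range M,
          Real.log ‖1 - (ρ : ℂ) * z ^ (2 * a + 2 * b + 1)‖ := by
          simp only [sum_add_distrib, sum_const, card_range, nsmul_eq_mul]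
          ring
      _ ≤ _ := by linarith

end Pool.Agent.Y94.LL
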