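import Mathlib
import Pool.Agent.Y94.LL.Up2

/-!
# An irreducible polynomial of small Mahler measure
-/

set_option autoImplicit false

namespace Pool.Agent.Y94.LL

open Complex Finset Polynomial

/-- an irreducible factor with small normalised Mahler measure -/
theorem exists_factor (B : ℝ) : ∀ (n : ℕ) (P : ℤ[X]), P.natDegree = n → P.Monic →
    0 < P.natDegree → Real.log (MM P) ≤ B * P.natDegree →
    ∃ Q : ℤ[X], Q ∣ P ∧ Irreducible Q ∧ 0 < Q.natDegree ∧ Real.log (MM Q) ≤ B * Q.natDegree := by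
  intro n
  induction n using Nat.strong_induction_on with
  | _ n ih =>
    intro P hn hP hd hB
    by_cases hirr : Irreducible P
    · exact ⟨P, dvd_rfl, hirr, hd, hB⟩
    · have hP1 : P ≠ 1 := by
        rintro rfl
        simp at hd
      rw [hP.irreducible_iff_natDegree] at hirr
      push Not at hirr
      obtain ⟨f, g, hf, hg, hfg, hf0, hg0⟩ := hirr hP1
      have hdeg : P.natDegree = f.natDegree + g.natDegree := by
        rw [← hfg, hf.natDegree_mul hg]
      have hmm : Real.log (MM P) = Real.log (MM f) + Real.log (MM g) := by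
        rw [← Real.log_mul (MM_pos hf.ne_zero).ne' (MM_pos hg.ne_zero).ne', ← hfg]
        congr 1
        unfold MM
        rw [Polynomial.map_mul, mahlerMeasure_mul]
      have hor : Real.log (MM f) ≤ B * f.natDegree ∨ Real.log (MM g) ≤ B * g.natDegree := by
        by_contra hcon
        push Not at hcon
        rw [hdeg] at hB
        push_cast at hB
        linarith [hcon.1, hcon.2]
      rcases hor with h | h
      · obtain ⟨Q, h1, h2, h3, h4⟩ := ih f.natDegree (by omega) f rfl hf (by omega) h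
        exact ⟨Q, h1.trans ⟨g, hfg.symm⟩, h2, h3, h4⟩
      · obtain ⟨Q, h1, h2, h3, h4⟩ := ih g.natDegree (by omega) g rfl hg (by omega) h
        exact ⟨Q, h1.trans ⟨f, by rw [mul_comm]; exact hfg.symm⟩, h2, h3, h4⟩

/-- the auxiliary polynomial whose roots contain the points of the circle with `|F| = 1` -/
theorem circle_points (M : ℕ) (hM : 1 ≤ M) : ∃ H : ℤ[X], H ≠ 0 ∧
    ∀ z : ℂ, ‖z‖ = 1 → ‖aeval z (FF M)‖ = 1 → aeval z H = 0 := by
  refine ⟨C ((-1) ^ (M * M)) * FF M ^ 2 - X ^ (FF M).natDegree, ?_, ?_⟩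
  · intro h
    have h2 := congrArg (aeval (1 : ℂ)) h
    have h3 : aeval (1 : ℂ) (FF M) = 0 := by
      rw [FF_aeval]
      apply prod_eq_zero (mem_range.2 (show 0 < M by omega))
      apply prod_eq_zero (mem_range.2 (show 0 < M by omega))
      simp
    simp [h3] at h2
  · intro z hz hF
    have hzz : z * (starRingEnd ℂ) z = 1 := by
      rw [Complex.mul_conj, Complex.normSq_eq_norm_sq, hz]; simp
    have h1 : z ^ (FF M).natDegree * (starRingEnd ℂ) (aeval z (FF M)) =
        (-1) ^ (M * M) * aeval z (FF M) := by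
      rw [FF_natDegree, FF_aeval, ← prod_pow_eq_pow_sum, map_prod, ← prod_mul_distrib]
      have e : ∀ a ∈ range M, z ^ (∑ b ∈ range M, (2 * a + 2 * b + 1)) *
          (starRingEnd ℂ) (∏ b ∈ range M, (z ^ (2 * a + 2 * b + 1) - 1)) =
          (-1) ^ M * ∏ b ∈ range M, (z ^ (2 * a + 2 * b + 1) - 1) := by
        intro a _
        rw [← prod_pow_eq_pow_sum, map_prod, ← prod_mul_distrib]
        have e2 : ∀ b ∈ range M, z ^ (2 * a + 2 * b + 1) *
            (starRingEnd ℂ) (z ^ (2 * a + 2 * b + 1) - 1) =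
            (-1) * (z ^ (2 * a + 2 * b + 1) - 1) := by
          intro b _
          rw [map_sub, map_one, map_pow, mul_sub, ← mul_pow, hzz, one_pow]
          ring
        rw [prod_congr rfl e2, prod_mul_distrib, prod_const, card_range]
      rw [prod_congr rfl e, prod_mul_distrib, prod_const, card_range, ← pow_mul]
    have h2 : aeval z (FF M) * (starRingEnd ℂ) (aeval z (FF M)) = 1 := by
      rw [Complex.mul_conj, Complex.normSq_eq_norm_sq, hF]; simp
    have h3 : z ^ (FF M).natDegree = (-1) ^ (M * M) * (aeval z (FF M)) ^ 2 := by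
      calc z ^ (FF M).natDegree = z ^ (FF M).natDegree *
          (aeval z (FF M) * (starRingEnd ℂ) (aeval z (FF M))) := by rw [h2, mul_one]
        _ = (z ^ (FF M).natDegree * (starRingEnd ℂ) (aeval z (FF M))) * aeval z (FF M) := by ring
        _ = (-1) ^ (M * M) * (aeval z (FF M)) ^ 2 := by rw [h1]; ring
    rw [map_sub, map_mul, map_pow (aeval z) X, aeval_X, h3, map_pow (aeval z) (FF M)]
    simp

/-- the composed polynomial -/
noncomputable def GG (M N : ℕ) : ℤ[X] := (cyclotomic N ℤ).comp (FF M)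

theorem FF_deg_pos {M : ℕ} (hM : 1 ≤ M) : 0 < (FF M).natDegree := by
  have h := deg_ge M hM
  have h2 : (1 : ℝ) ≤ (M : ℝ) ^ 3 := one_le_pow₀ (by exact_mod_cast hM)
  have h3 : (0 : ℝ) < ((FF M).natDegree : ℝ) := by linarith
  exact_mod_cast h3

theorem GG_monic {M : ℕ} (hM : 1 ≤ M) (N : ℕ) : (GG M N).Monic :=
  (cyclotomic.monic N ℤ).comp (FF_monic M) (FF_deg_pos hM).ne'

theorem GG_natDegree (M : ℕ) {N : ℕ} (hN : N.Prime) :
    (GG M N).natDegree = (N - 1) * (FF M).natDegree := by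
  unfold GG
  rw [natDegree_comp, natDegree_cyclotomic, Nat.totient_prime hN]

theorem GG_root {M N : ℕ} (hN : N.Prime) {z : ℂ} (hz : aeval z (GG M N) = 0) :
    orderOf (aeval z (FF M)) = N := by
  unfold GG at hz
  rw [aeval_comp, aeval_def, ← eval_map, map_cyclotomic] at hz
  have : NeZero (N : ℂ) := ⟨by exact_mod_cast hN.ne_zero⟩
  have h := isRoot_cyclotomic_iff.1 hz
  exact h.eq_orderOf.symm

theorem GG_circle (M : ℕ) {N : ℕ} (hN : N.Prime) {ρ : ℝ} (h0 : 0 ≤ ρ) (h1 : ρ < 1) {z : ℂ}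
    (hz : ‖z‖ = 1) : Real.log ‖aeval z (GG M N)‖ ≤ Real.log N + ((N - 1 : ℕ) : ℝ) * maj M ρ z := by
  have hF := FF_circle M h0 h1 hz
  set w := aeval z (FF M) with hw
  have hNp : (0 : ℝ) < N := by exact_mod_cast hN.pos
  have hN1 : (1 : ℝ) ≤ N := by exact_mod_cast hN.one_le
  have hm1 : 1 ≤ max 1 ‖w‖ := le_max_left _ _
  have e : aeval z (GG M N) = ∑ i ∈ range N, w ^ i := by
    have : Fact N.Prime := ⟨hN⟩
    unfold GG
    rw [aeval_comp, cyclotomic_prime, map_sum]
    simp [hw]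
  have hle : ‖aeval z (GG M N)‖ ≤ N * (max 1 ‖w‖) ^ (N - 1) := by
    rw [e]
    calc ‖∑ i ∈ range N, w ^ i‖ ≤ ∑ i ∈ range N, ‖w ^ i‖ := norm_sum_le _ _
      _ ≤ ∑ _i ∈ range N, (max 1 ‖w‖) ^ (N - 1) := by
        apply sum_le_sum
        intro i hi
        rw [mem_range] at hi
        rw [norm_pow]
        calc ‖w‖ ^ i ≤ (max 1 ‖w‖) ^ i := pow_le_pow_left₀ (norm_nonneg _) (le_max_right _ _) i
          _ ≤ (max 1 ‖w‖) ^ (N - 1) := pow_le_pow_right₀ hm1 (by omega)
      _ = N * (max 1 ‖w‖) ^ (N - 1) := by rw [sum_const, card_range, nsmul_eq_mul]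
  have hF2 : ((N - 1 : ℕ) : ℝ) * Real.log (max 1 ‖w‖) ≤ ((N - 1 : ℕ) : ℝ) * maj M ρ z :=
    mul_le_mul_of_nonneg_left hF (Nat.cast_nonneg _)
  by_cases h : ‖aeval z (GG M N)‖ = 0
  · rw [h, Real.log_zero]
    have h2 := Real.log_nonneg hm1
    have h3 := Real.log_nonneg hN1
    have h4 : 0 ≤ ((N - 1 : ℕ) : ℝ) * Real.log (max 1 ‖w‖) := by positivity
    linarith
  · have hpos : 0 < ‖aeval z (GG M N)‖ := lt_of_le_of_ne (norm_nonneg _) (Ne.symm h)
    have h2 := Real.log_le_log hpos hle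
    rw [Real.log_mul hNp.ne' (by positivity), Real.log_pow] at h2
    linarith

theorem GG_log {M : ℕ} (hM : 1 ≤ M) {N : ℕ} (hN : N.Prime) {ρ : ℝ} (h0 : 0 ≤ ρ) (h1 : ρ < 1) :
    Real.log (MM (GG M N)) ≤ Real.log N + ((N - 1 : ℕ) : ℝ) *
      ((M : ℝ) ^ 2 * Real.log (2 / (1 + ρ)) + M * Real.log (1 / (1 - ρ))) := by
  have hmi := maj_int M h0 h1
  have hint : CircleIntegrable (fun z : ℂ => Real.log N + ((N - 1 : ℕ) : ℝ) * maj M ρ z) 0 1 :=
    (circleIntegrable_const _ _ _).add (hmi.const_smul (a := ((N - 1 : ℕ) : ℝ)))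
  unfold MM
  rw [← logMahlerMeasure_eq_log_MahlerMeasure, logMahlerMeasure_def]
  have h2 : Real.circleAverage (fun z : ℂ => Real.log ‖eval z ((GG M N).map (Int.castRingHom ℂ))‖) 0 1 ≤
      Real.circleAverage (fun z : ℂ => Real.log N + ((N - 1 : ℕ) : ℝ) * maj M ρ z) 0 1 := by
    apply Real.circleAverage_mono
    · exact (intervalIntegrable_mahlerMeasure _ : _)
    · exact hint
    · intro z hz
      rw [abs_one, mem_sphere_zero_iff_norm] at hz
      have h3 := GG_circle M hN h0 h1 hz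
      rw [aeval_def, ← eval_map] at h3
      exact h3
  refine h2.trans (le_of_eq ?_)
  have h4 := Real.circleAverage_fun_add (c := (0 : ℂ)) (R := 1)
    (circleIntegrable_const (Real.log (N : ℝ)) (0 : ℂ) 1) (hmi.const_smul (a := ((N - 1 : ℕ) : ℝ)))
  have h5 := Real.circleAverage_fun_smul (𝕜 := ℝ) (a := ((N - 1 : ℕ) : ℝ)) (c := (0 : ℂ)) (R := 1)
    (f := maj M ρ)
  rw [maj_avg M h0 h1] at h5
  simp only [smul_eq_mul, Pi.smul_apply] at h4 h5
  rw [h4, show Real.circleAverage (((N - 1 : ℕ) : ℝ) • maj M ρ) 0 1 = _ from h5,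
    Real.circleAverage_const]

end Pool.Agent.Y94.LL
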