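import Mathlib
import Pool.Agent.Y94.LL.Up3

/-!
# The upper bound for sectors
-/

set_option autoImplicit false

namespace Pool.Agent.Y94.LL

open Complex Finset Polynomial
open Pool.Agent.W401.SSS

theorem upper_eta {M : ℕ} (hM : 1 ≤ M) {x : ℝ} (hx0 : 0 < x)
    (hx : 4 * (M : ℝ) * x ≤ Real.pi / 2) {η : ℝ} (hη : 0 < η) :
    ∃ P : ℤ[X], Admissible (sector (Real.pi - x)) P ∧
      Real.log (MM P) ≤ ((1 + Real.log (M + 1)) / (M : ℝ) ^ 2 + η) * P.natDegree := by
  classical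
  have hM1 : (1 : ℝ) ≤ M := by exact_mod_cast hM
  have hM0 : (0 : ℝ) < M := by linarith
  obtain ⟨H, hH, hcirc⟩ := circle_points M hM
  set B0 : ℕ := (rts H).toFinset.sup (fun z => orderOf (aeval z (FF M))) with hB0
  have hev : ∀ᶠ y : ℝ in Filter.atTop, Real.log y ≤ η / 2 * y := by
    have h1 := Real.isLittleO_log_id_atTop.bound (show 0 < η / 2 by linarith)
    filter_upwards [h1, Filter.eventually_ge_atTop (1 : ℝ)] with y hy hy1
    rw [Real.norm_eq_abs, Real.norm_eq_abs, id, abs_of_nonneg (Real.log_nonneg hy1),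
      abs_of_nonneg (by linarith)] at hy
    exact hy
  obtain ⟨X0, hX0⟩ := Filter.eventually_atTop.1 hev
  obtain ⟨N, hNge, hN⟩ := Nat.exists_infinite_primes (B0 + 4 + ⌈X0⌉₊)
  have hNX : X0 ≤ N := by
    have h1 := Nat.le_ceil X0
    have h2 : ((⌈X0⌉₊ : ℕ) : ℝ) ≤ N := by exact_mod_cast (by omega : ⌈X0⌉₊ ≤ N)
    linarith
  have hlogN : Real.log N ≤ η * ((N - 1 : ℕ) : ℝ) := by
    have h1 := hX0 N hNX
    have h2 : (N : ℝ) ≤ 2 * ((N - 1 : ℕ) : ℝ) := by
      exact_mod_cast (by omega : N ≤ 2 * (N - 1))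
    nlinarith
  have hN1 : (0 : ℝ) < ((N - 1 : ℕ) : ℝ) := by
    exact_mod_cast (by omega : 0 < N - 1)
  -- the measure
  set ρ : ℝ := (M : ℝ) / (M + 1) with hρ
  have hρ0 : 0 ≤ ρ := by positivity
  have hρ1 : ρ < 1 := by rw [hρ, div_lt_one (by linarith)]; linarith
  have hlog := GG_log hM hN hρ0 hρ1
  have hE1 : (M : ℝ) ^ 2 * Real.log (2 / (1 + ρ)) ≤ M := by
    have e : 2 / (1 + ρ) = 1 + 1 / (2 * M + 1) := by
      rw [hρ]
      field_simp
      ring
    have h2 : Real.log (1 + 1 / (2 * (M : ℝ) + 1)) ≤ 1 / (2 * M + 1) := by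
      have := Real.log_le_sub_one_of_pos (show 0 < 1 + 1 / (2 * (M : ℝ) + 1) by positivity)
      linarith
    have h3 : 1 / (2 * (M : ℝ) + 1) ≤ 1 / M :=
      one_div_le_one_div_of_le hM0 (by linarith)
    rw [e]
    calc (M : ℝ) ^ 2 * Real.log (1 + 1 / (2 * M + 1)) ≤ (M : ℝ) ^ 2 * (1 / M) :=
          mul_le_mul_of_nonneg_left (h2.trans h3) (sq_nonneg _)
      _ = M := by field_simp
  have hE2 : Real.log (1 / (1 - ρ)) = Real.log (M + 1) := by
    congr 1
    rw [hρ]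
    field_simp
    ring
  rw [hE2] at hlog
  set D : ℝ := ((FF M).natDegree : ℝ) with hD
  have hD3 : (M : ℝ) ^ 3 ≤ D := deg_ge M hM
  have hD1 : 1 ≤ D := le_trans (one_le_pow₀ hM1) hD3
  have hl0 : 0 ≤ Real.log ((M : ℝ) + 1) := Real.log_nonneg (by linarith)
  have hGd : ((GG M N).natDegree : ℝ) = ((N - 1 : ℕ) : ℝ) * D := by
    rw [GG_natDegree M hN]; push_cast; ring
  have hmain : Real.log (MM (GG M N)) ≤
      ((1 + Real.log (M + 1)) / (M : ℝ) ^ 2 + η) * (GG M N).natDegree := by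
    rw [hGd]
    have h1 : (M : ℝ) ^ 2 * Real.log (2 / (1 + ρ)) + M * Real.log (M + 1) ≤
        (1 + Real.log (M + 1)) / (M : ℝ) ^ 2 * D := by
      calc (M : ℝ) ^ 2 * Real.log (2 / (1 + ρ)) + M * Real.log (M + 1) ≤
          M * (1 + Real.log (M + 1)) := by linarith
        _ = (1 + Real.log (M + 1)) / (M : ℝ) ^ 2 * (M : ℝ) ^ 3 := by field_simp
        _ ≤ (1 + Real.log (M + 1)) / (M : ℝ) ^ 2 * D :=
          mul_le_mul_of_nonneg_left hD3 (by positivity)
    have h2 := mul_le_mul_of_nonneg_left h1 hN1.le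
    have h3 : η * ((N - 1 : ℕ) : ℝ) ≤ η * (((N - 1 : ℕ) : ℝ) * D) := by
      apply mul_le_mul_of_nonneg_left _ hη.le
      nlinarith
    have e : ((1 + Real.log (M + 1)) / (M : ℝ) ^ 2 + η) * (((N - 1 : ℕ) : ℝ) * D) =
        ((N - 1 : ℕ) : ℝ) * ((1 + Real.log (M + 1)) / (M : ℝ) ^ 2 * D) +
          η * (((N - 1 : ℕ) : ℝ) * D) := by ring
    rw [e]
    linarith
  have hGpos : 0 < (GG M N).natDegree := by
    have : (0 : ℝ) < ((GG M N).natDegree : ℝ) := by
      rw [hGd]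
      exact mul_pos hN1 (by linarith)
    exact_mod_cast this
  obtain ⟨Q, hQ1, hQ2, hQ3, hQ4⟩ := exists_factor _ _ (GG M N) rfl (GG_monic hM N) hGpos hmain
  refine ⟨Q, ⟨hQ2, hQ3, ?_⟩, hQ4⟩
  intro z hz
  have hzG : aeval z (GG M N) = 0 := by
    obtain ⟨R, hR⟩ := hQ1
    rw [hR, map_mul, hz, zero_mul]
  have hord := GG_root hN hzG
  have hnorm : ‖aeval z (FF M)‖ = 1 := by
    have h1 : (aeval z (FF M)) ^ N = 1 := by
      rw [← hord]; exact pow_orderOf_eq_one _
    exact Complex.norm_eq_one_of_pow_eq_one h1 hN.ne_zero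
  refine ⟨?_, ?_, ?_⟩
  · rintro rfl
    have h1 : (aeval (0 : ℂ) (FF M)) ^ 2 = 1 := by
      rw [FF_aeval]
      simp only [ne_eq, Nat.add_eq_zero_iff, one_ne_zero, and_false, not_false_eq_true, zero_pow,
        zero_sub, prod_const, card_range]
      rw [← pow_mul, ← pow_mul, show M * (M * 2) = 2 * (M * M) by ring, pow_mul, neg_one_sq,
        one_pow]
    have h2 := orderOf_le_of_pow_eq_one (by norm_num : 0 < 2) h1
    rw [hord] at h2
    omega
  · intro m hm h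
    have h1 : ‖z‖ = 1 := Complex.norm_eq_one_of_pow_eq_one h (by omega)
    have h2 := hcirc z h1 hnorm
    have h3 : z ∈ (rts H).toFinset := by
      rw [Multiset.mem_toFinset, mem_rts hH]
      exact h2
    have h4 : orderOf (aeval z (FF M)) ≤ B0 :=
      Finset.le_sup (f := fun z => orderOf (aeval z (FF M))) h3
    rw [hord] at h4
    omega
  · rintro ⟨h1, h2⟩
    have h3 := FF_big hM hx0 hx h1 h2
    rw [hnorm] at h3
    exact lt_irrefl _ h3

theorem LL_le {V : Set ℂ} {P : ℤ[X]} (hP : Admissible V P) {c : ℝ}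
    (h : Real.log (MM P) ≤ c * P.natDegree) : LL V ≤ Real.exp c := by
  have hd : (0 : ℝ) < P.natDegree := by exact_mod_cast hP.2.1
  have h1 : LL V ≤ MM P ^ (1 / (P.natDegree : ℝ)) := by
    apply csInf_le
    · refine ⟨0, ?_⟩
      rintro y ⟨R, _, rfl⟩
      exact Real.rpow_nonneg (mahlerMeasure_nonneg _) _
    · exact ⟨P, hP, rfl⟩
  refine h1.trans ?_
  rw [Real.rpow_def_of_pos (MM_pos hP.1.ne_zero)]
  apply Real.exp_le_exp.2
  rw [mul_one_div, div_le_iff₀ hd]
  exact h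

/-- the upper bound for sectors -/
theorem upper_sector : ∀ θ : ℝ, Real.pi - 1 / 8 ≤ θ → θ < Real.pi →
    LL (sector θ) ≤ Real.exp (256 * (Real.pi - θ) ^ 2 * Real.log (2 / (Real.pi - θ))) := by
  intro θ h0 h1
  set x := Real.pi - θ with hx
  have hx0 : 0 < x := by linarith
  have hx1 : x ≤ 1 / 8 := by linarith
  have hpi := Real.pi_gt_three
  set y : ℝ := 1 / (4 * x) with hy
  have hyx : y * (4 * x) = 1 := by rw [hy]; field_simp
  have hy2 : 2 ≤ y := by
    rw [hy, le_div_iff₀ (by linarith)]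
    linarith
  have hfl := Nat.floor_le (show 0 ≤ y by linarith)
  have hfl2 := Nat.lt_floor_add_one y
  set M : ℕ := ⌊y⌋₊ with hM
  have hMy : y / 2 ≤ (M : ℝ) := by linarith
  have hM1 : 1 ≤ M := by
    have : (0 : ℝ) < M := by linarith
    have : 0 < M := by exact_mod_cast this
    omega
  have hM0 : (0 : ℝ) < M := by exact_mod_cast hM1
  have hMx : 4 * (M : ℝ) * x ≤ Real.pi / 2 := by
    have h2 := mul_le_mul_of_nonneg_right hfl (by linarith : 0 ≤ 4 * x)
    rw [hyx] at h2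
    linarith
  set L := Real.log (2 / x) with hL
  have hL1 : 1 ≤ L := by
    rw [hL, Real.le_log_iff_exp_le (by positivity)]
    have h2 := Real.exp_one_lt_d9
    have h3 : 16 ≤ 2 / x := by
      rw [le_div_iff₀ hx0]
      linarith
    linarith
  have hlM : Real.log ((M : ℝ) + 1) ≤ L := by
    rw [hL]
    apply Real.log_le_log (by linarith)
    rw [le_div_iff₀ hx0]
    have h2 := mul_le_mul_of_nonneg_right hfl hx0.le
    linarith
  have hc : (1 + Real.log ((M : ℝ) + 1)) / (M : ℝ) ^ 2 ≤ 128 * x ^ 2 * L := by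
    rw [div_le_iff₀ (by positivity)]
    have h2 : 1 / 64 ≤ x ^ 2 * (M : ℝ) ^ 2 := by
      have h3 : 1 / 8 ≤ x * (M : ℝ) := by
        have := mul_le_mul_of_nonneg_left hMy hx0.le
        linarith
      calc (1 : ℝ) / 64 = (1 / 8) * (1 / 8) := by norm_num
        _ ≤ (x * (M : ℝ)) * (x * (M : ℝ)) := mul_le_mul h3 h3 (by norm_num) (by positivity)
        _ = x ^ 2 * (M : ℝ) ^ 2 := by ring
    nlinarith
  have hpos : 0 < 128 * x ^ 2 * L := by positivity
  obtain ⟨P, hP1, hP2⟩ := upper_eta hM1 hx0 hMx hpos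
  have e : Real.pi - x = θ := by rw [hx]; ring
  rw [e] at hP1
  refine LL_le hP1 (hP2.trans ?_)
  apply mul_le_mul_of_nonneg_right _ (Nat.cast_nonneg _)
  linarith

end Pool.Agent.Y94.LL
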