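import Mathlib
import Pool.Agent.Y94.LL.Up4

/-!
# The sector constant for algebraic integers and its values near the angle pi
-/

set_option autoImplicit false

namespace Pool.Agent.Y94.LL

open Complex Finset Polynomial
open Pool.Agent.W401.SSS

theorem upper_eta_monic {M : ℕ} (hM : 1 ≤ M) {x : ℝ} (hx0 : 0 < x)
    (hx : 4 * (M : ℝ) * x ≤ Real.pi / 2) {η : ℝ} (hη : 0 < η) :
    ∃ P : ℤ[X], P.Monic ∧ Admissible (sector (Real.pi - x)) P ∧
      Real.log (MM P) ≤ ((1 + Real.log (M + 1)) / (M : ℝ) ^ 2 + η) * P.natDegree := by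
  classical
  have hM1 : (1 : ℝ) ≤ M := by exact_mod_cast hM
  have hM0 : (0 : ℝ) < M := by linarith
  obtain ⟨H, hH, hcirc⟩ := circle_points M hM
  set B0 : ℕ := (rts H).toFinset.sup (fun z => orderOf (aeval z (FF M))) with hB0
  have hev : ∀ᶠ y : ℝ in Filter.atTop, Real.log y ≤ η / 2 * y := by
    have h1 := Real.isLittleO_log_id_atTop.bound (show 0 < η / 2 by linarith)
    filter_upwards [h1, Filter.eventually_ge_atTop (1 : ℝ)] with y hy hy1
    rw [Real.norm_eq_abs, Real.norm_eq_abs, id, abs_of_nonneg (Real.log_nonneg hy1),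
      abs_of_nonneg (by linarith)] at hy
    exact hy
  obtain ⟨X0, hX0⟩ := Filter.eventually_atTop.1 hev
  obtain ⟨N, hNge, hN⟩ := Nat.exists_infinite_primes (B0 + 4 + ⌈X0⌉₊)
  have hNX : X0 ≤ N := by
    have h1 := Nat.le_ceil X0
    have h2 : ((⌈X0⌉₊ : ℕ) : ℝ) ≤ N := by exact_mod_cast (by omega : ⌈X0⌉₊ ≤ N)
    linarith
  have hlogN : Real.log N ≤ η * ((N - 1 : ℕ) : ℝ) := by
    have h1 := hX0 N hNX
    have h2 : (N : ℝ) ≤ 2 * ((N - 1 : ℕ) : ℝ) := by
      exact_mod_cast (by omega : N ≤ 2 * (N - 1))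
    nlinarith
  have hN1 : (0 : ℝ) < ((N - 1 : ℕ) : ℝ) := by
    exact_mod_cast (by omega : 0 < N - 1)
  -- the measure
  set ρ : ℝ := (M : ℝ) / (M + 1) with hρ
  have hρ0 : 0 ≤ ρ := by positivity
  have hρ1 : ρ < 1 := by rw [hρ, div_lt_one (by linarith)]; linarith
  have hlog := GG_log hM hN hρ0 hρ1
  have hE1 : (M : ℝ) ^ 2 * Real.log (2 / (1 + ρ)) ≤ M := by
    have e : 2 / (1 + ρ) = 1 + 1 / (2 * M + 1) := by
      rw [hρ]
      field_simp
      ring
    have h2 : Real.log (1 + 1 / (2 * (M : ℝ) + 1)) ≤ 1 / (2 * M + 1) := by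
      have := Real.log_le_sub_one_of_pos (show 0 < 1 + 1 / (2 * (M : ℝ) + 1) by positivity)
      linarith
    have h3 : 1 / (2 * (M : ℝ) + 1) ≤ 1 / M :=
      one_div_le_one_div_of_le hM0 (by linarith)
    rw [e]
    calc (M : ℝ) ^ 2 * Real.log (1 + 1 / (2 * M + 1)) ≤ (M : ℝ) ^ 2 * (1 / M) :=
          mul_le_mul_of_nonneg_left (h2.trans h3) (sq_nonneg _)
      _ = M := by field_simp
  have hE2 : Real.log (1 / (1 - ρ)) = Real.log (M + 1) := by
    congr 1
    rw [hρ]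
    field_simp
    ring
  rw [hE2] at hlog
  set D : ℝ := ((FF M).natDegree : ℝ) with hD
  have hD3 : (M : ℝ) ^ 3 ≤ D := deg_ge M hM
  have hD1 : 1 ≤ D := le_trans (one_le_pow₀ hM1) hD3
  have hl0 : 0 ≤ Real.log ((M : ℝ) + 1) := Real.log_nonneg (by linarith)
  have hGd : ((GG M N).natDegree : ℝ) = ((N - 1 : ℕ) : ℝ) * D := by
    rw [GG_natDegree M hN]; push_cast; ring
  have hmain : Real.log (MM (GG M N)) ≤
      ((1 + Real.log (M + 1)) / (M : ℝ) ^ 2 + η) * (GG M N).natDegree := by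
    rw [hGd]
    have h1 : (M : ℝ) ^ 2 * Real.log (2 / (1 + ρ)) + M * Real.log (M + 1) ≤
        (1 + Real.log (M + 1)) / (M : ℝ) ^ 2 * D := by
      calc (M : ℝ) ^ 2 * Real.log (2 / (1 + ρ)) + M * Real.log (M + 1) ≤
          M * (1 + Real.log (M + 1)) := by linarith
        _ = (1 + Real.log (M + 1)) / (M : ℝ) ^ 2 * (M : ℝ) ^ 3 := by field_simp
        _ ≤ (1 + Real.log (M + 1)) / (M : ℝ) ^ 2 * D :=
          mul_le_mul_of_nonneg_left hD3 (by positivity)
    have h2 := mul_le_mul_of_nonneg_left h1 hN1.le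
    have h3 : η * ((N - 1 : ℕ) : ℝ) ≤ η * (((N - 1 : ℕ) : ℝ) * D) := by
      apply mul_le_mul_of_nonneg_left _ hη.le
      nlinarith
    have e : ((1 + Real.log (M + 1)) / (M : ℝ) ^ 2 + η) * (((N - 1 : ℕ) : ℝ) * D) =
        ((N - 1 : ℕ) : ℝ) * ((1 + Real.log (M + 1)) / (M : ℝ) ^ 2 * D) +
          η * (((N - 1 : ℕ) : ℝ) * D) := by ring
    rw [e]
    linarith
  have hGpos : 0 < (GG M N).natDegree := by
    have : (0 : ℝ) < ((GG M N).natDegree : ℝ) := by
      rw [hGd]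
      exact mul_pos hN1 (by linarith)
    exact_mod_cast this
  obtain ⟨Q, hQ1, hQ2, hQ3, hQ4⟩ := exists_factor _ _ (GG M N) rfl (GG_monic hM N) hGpos hmain
  suffices hroots : ∀ z : ℂ, aeval z Q = 0 →
      z ≠ 0 ∧ (∀ m : ℕ, 0 < m → z ^ m ≠ 1) ∧ z ∉ sector (Real.pi - x) by
    have hunit : IsUnit Q.leadingCoeff := by
      obtain ⟨R, hR⟩ := hQ1
      have h1 := (GG_monic hM N).leadingCoeff
      rw [hR, leadingCoeff_mul] at h1
      exact IsUnit.of_mul_eq_one _ h1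
    rcases Int.isUnit_iff.1 hunit with h | h
    · exact ⟨Q, h, ⟨hQ2, hQ3, hroots⟩, hQ4⟩
    · refine ⟨-Q, ?_, ⟨?_, ?_, ?_⟩, ?_⟩
      · rw [Monic, leadingCoeff_neg, h, neg_neg]
      · exact (Associated.refl Q).neg_left.irreducible_iff.2 hQ2
      · rw [natDegree_neg]; exact hQ3
      · intro z hz
        rw [map_neg, neg_eq_zero] at hz
        exact hroots z hz
      · rw [MM_neg, natDegree_neg]
        exact hQ4
  intro z hz
  have hzG : aeval z (GG M N) = 0 := by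
    obtain ⟨R, hR⟩ := hQ1
    rw [hR, map_mul, hz, zero_mul]
  have hord := GG_root hN hzG
  have hnorm : ‖aeval z (FF M)‖ = 1 := by
    have h1 : (aeval z (FF M)) ^ N = 1 := by
      rw [← hord]; exact pow_orderOf_eq_one _
    exact Complex.norm_eq_one_of_pow_eq_one h1 hN.ne_zero
  refine ⟨?_, ?_, ?_⟩
  · rintro rfl
    have h1 : (aeval (0 : ℂ) (FF M)) ^ 2 = 1 := by
      rw [FF_aeval]
      simp only [ne_eq, Nat.add_eq_zero_iff, one_ne_zero, and_false, not_false_eq_true, zero_pow,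
        zero_sub, prod_const, card_range]
      rw [← pow_mul, ← pow_mul, show M * (M * 2) = 2 * (M * M) by ring, pow_mul, neg_one_sq,
        one_pow]
    have h2 := orderOf_le_of_pow_eq_one (by norm_num : 0 < 2) h1
    rw [hord] at h2
    omega
  · intro m hm h
    have h1 : ‖z‖ = 1 := Complex.norm_eq_one_of_pow_eq_one h (by omega)
    have h2 := hcirc z h1 hnorm
    have h3 : z ∈ (rts H).toFinset := by
      rw [Multiset.mem_toFinset, mem_rts hH]
      exact h2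
    have h4 : orderOf (aeval z (FF M)) ≤ B0 :=
      Finset.le_sup (f := fun z => orderOf (aeval z (FF M))) h3
    rw [hord] at h4
    omega
  · rintro ⟨h1, h2⟩
    have h3 := FF_big hM hx0 hx h1 h2
    rw [hnorm] at h3
    exact lt_irrefl _ h3

/-- `P` is the minimal polynomial over the integers of a nonzero algebraic integer which is not a
root of unity and all of whose conjugates have argument at most `θ` in absolute value. -/
def AdmInt (θ : ℝ) (P : ℤ[X]) : Prop :=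
  P.Monic ∧ Irreducible P ∧ 0 < P.natDegree ∧
    ∀ z : ℂ, aeval z P = 0 → z ≠ 0 ∧ (∀ m : ℕ, 0 < m → z ^ m ≠ 1) ∧ |Complex.arg z| ≤ θ

/-- The sector constant `c_θ` (angles in radians). -/
noncomputable def cc (θ : ℝ) : ℝ :=
  sInf {x : ℝ | ∃ P : ℤ[X], AdmInt θ P ∧ x = MM P ^ (1 / (P.natDegree : ℝ))}

theorem AdmInt.adm {θ : ℝ} {P : ℤ[X]} (h : AdmInt θ P) : Admissible (sector θ) P :=
  ⟨h.2.1, h.2.2.1, fun z hz => ⟨(h.2.2.2 z hz).1, (h.2.2.2 z hz).2.1,
    fun h2 => absurd (h.2.2.2 z hz).2.2 (not_le.2 h2.2)⟩⟩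

theorem admInt_of {θ : ℝ} {P : ℤ[X]} (h1 : P.Monic) (h : Admissible (sector θ) P) : AdmInt θ P :=
  ⟨h1, h.1, h.2.1, fun z hz => ⟨(h.2.2 z hz).1, (h.2.2 z hz).2.1,
    by
      by_contra hcon
      exact (h.2.2 z hz).2.2 ⟨(h.2.2 z hz).1, not_le.1 hcon⟩⟩⟩

theorem cc_lower : ∃ c : ℝ, 0 < c ∧ ∀ θ : ℝ, Real.pi - 1 ≤ θ → θ < Real.pi →
    Real.exp (c * (Real.pi - θ) ^ 2 / (Real.log (2 / (Real.pi - θ))) ^ 5) ≤ cc θ := by
  obtain ⟨c, hc, h⟩ := lower_V
  refine ⟨c / 4, by positivity, ?_⟩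
  intro θ h0 h1
  have hpi := Real.pi_gt_three
  apply le_csInf
  · exact ⟨_, _, admInt_of (monic_X_sub_C (2 : ℤ)) (adm_two (by linarith)), rfl⟩
  · rintro x ⟨P, hP, rfl⟩
    have h2 := h (sector θ) (-1) ((Real.pi - θ) / 2) (by simp) (by linarith) (by linarith)
      (ball_sector h0 h1) P hP.adm
    refine le_trans (le_of_eq ?_) h2
    congr 1
    rw [one_div_div]
    ring

theorem cc_le {θ : ℝ} {P : ℤ[X]} (hP : AdmInt θ P) {c : ℝ}
    (h : Real.log (MM P) ≤ c * P.natDegree) : cc θ ≤ Real.exp c := by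
  have hd : (0 : ℝ) < P.natDegree := by exact_mod_cast hP.2.2.1
  have h1 : cc θ ≤ MM P ^ (1 / (P.natDegree : ℝ)) := by
    apply csInf_le
    · refine ⟨0, ?_⟩
      rintro y ⟨R, _, rfl⟩
      exact Real.rpow_nonneg (mahlerMeasure_nonneg _) _
    · exact ⟨P, hP, rfl⟩
  refine h1.trans ?_
  rw [Real.rpow_def_of_pos (MM_pos hP.2.1.ne_zero)]
  apply Real.exp_le_exp.2
  rw [mul_one_div, div_le_iff₀ hd]
  exact h

/-- the upper bound for sectors -/
theorem cc_upper : ∀ θ : ℝ, Real.pi - 1 / 8 ≤ θ → θ < Real.pi →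
    cc θ ≤ Real.exp (256 * (Real.pi - θ) ^ 2 * Real.log (2 / (Real.pi - θ))) := by
  intro θ h0 h1
  set x := Real.pi - θ with hx
  have hx0 : 0 < x := by linarith
  have hx1 : x ≤ 1 / 8 := by linarith
  have hpi := Real.pi_gt_three
  set y : ℝ := 1 / (4 * x) with hy
  have hyx : y * (4 * x) = 1 := by rw [hy]; field_simp
  have hy2 : 2 ≤ y := by
    rw [hy, le_div_iff₀ (by linarith)]
    linarith
  have hfl := Nat.floor_le (show 0 ≤ y by linarith)
  have hfl2 := Nat.lt_floor_add_one y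
  set M : ℕ := ⌊y⌋₊ with hM
  have hMy : y / 2 ≤ (M : ℝ) := by linarith
  have hM1 : 1 ≤ M := by
    have : (0 : ℝ) < M := by linarith
    have : 0 < M := by exact_mod_cast this
    omega
  have hM0 : (0 : ℝ) < M := by exact_mod_cast hM1
  have hMx : 4 * (M : ℝ) * x ≤ Real.pi / 2 := by
    have h2 := mul_le_mul_of_nonneg_right hfl (by linarith : 0 ≤ 4 * x)
    rw [hyx] at h2
    linarith
  set L := Real.log (2 / x) with hL
  have hL1 : 1 ≤ L := by
    rw [hL, Real.le_log_iff_exp_le (by positivity)]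
    have h2 := Real.exp_one_lt_d9
    have h3 : 16 ≤ 2 / x := by
      rw [le_div_iff₀ hx0]
      linarith
    linarith
  have hlM : Real.log ((M : ℝ) + 1) ≤ L := by
    rw [hL]
    apply Real.log_le_log (by linarith)
    rw [le_div_iff₀ hx0]
    have h2 := mul_le_mul_of_nonneg_right hfl hx0.le
    linarith
  have hc : (1 + Real.log ((M : ℝ) + 1)) / (M : ℝ) ^ 2 ≤ 128 * x ^ 2 * L := by
    rw [div_le_iff₀ (by positivity)]
    have h2 : 1 / 64 ≤ x ^ 2 * (M : ℝ) ^ 2 := by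
      have h3 : 1 / 8 ≤ x * (M : ℝ) := by
        have := mul_le_mul_of_nonneg_left hMy hx0.le
        linarith
      calc (1 : ℝ) / 64 = (1 / 8) * (1 / 8) := by norm_num
        _ ≤ (x * (M : ℝ)) * (x * (M : ℝ)) := mul_le_mul h3 h3 (by norm_num) (by positivity)
        _ = x ^ 2 * (M : ℝ) ^ 2 := by ring
    nlinarith
  have hpos : 0 < 128 * x ^ 2 * L := by positivity
  obtain ⟨P, hP0, hP1, hP2⟩ := upper_eta_monic hM1 hx0 hMx hpos
  have e : Real.pi - x = θ := by rw [hx]; ring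
  rw [e] at hP1
  refine cc_le (admInt_of hP0 hP1) (hP2.trans ?_)
  apply mul_le_mul_of_nonneg_right _ (Nat.cast_nonneg _)
  linarith

/-- the constant decreases whenever the distance to `π` shrinks by more than a power of its
logarithm -/
theorem cc_strict : ∃ C : ℝ, 1 ≤ C ∧ ∀ θ₁ θ₂ : ℝ, Real.pi - 1 / 8 ≤ θ₁ → θ₁ ≤ θ₂ → θ₂ < Real.pi →
    C * (Real.pi - θ₂) * (Real.log (2 / (Real.pi - θ₂))) ^ 3 ≤ Real.pi - θ₁ → cc θ₂ < cc θ₁ := by
  obtain ⟨c, hc, h⟩ := cc_lower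
  refine ⟨257 / c + 1, by
    have : 0 ≤ 257 / c := by positivity
    linarith, ?_⟩
  intro θ₁ θ₂ h1 h12 h2 h3
  set x₁ := Real.pi - θ₁ with hx₁
  set x₂ := Real.pi - θ₂ with hx₂
  set C : ℝ := 257 / c + 1 with hC
  have hC1 : 1 ≤ C := by
    have : 0 ≤ 257 / c := by positivity
    linarith
  have hC2 : 257 ≤ c * C := by
    rw [hC, mul_add, mul_div_cancel₀ _ hc.ne', mul_one]
    linarith
  have hx20 : 0 < x₂ := by linarith
  have hx18 : x₁ ≤ 1 / 8 := by linarith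
  have hx28 : x₂ ≤ 1 / 8 := by linarith
  have hL2 : 1 ≤ Real.log (2 / x₂) := by
    rw [Real.le_log_iff_exp_le (by positivity)]
    have h4 := Real.exp_one_lt_d9
    have h5 : 16 ≤ 2 / x₂ := by rw [le_div_iff₀ hx20]; linarith
    linarith
  set L := Real.log (2 / x₂) with hL
  have hx12 : x₂ ≤ x₁ := by linarith
  have hx10 : 0 < x₁ := by linarith
  have hL1 : Real.log (2 / x₁) ≤ L := by
    apply Real.log_le_log (by positivity)
    exact div_le_div_of_nonneg_left (by norm_num) hx20 hx12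
  have hL10 : 0 < Real.log (2 / x₁) := by
    apply Real.log_pos
    rw [lt_div_iff₀ hx10]
    linarith
  have g1 := h θ₁ (by linarith) (by linarith)
  have g2 := cc_upper θ₂ (by linarith) h2
  rw [← hx₁] at g1
  rw [← hx₂, ← hL] at g2
  refine lt_of_le_of_lt g2 (lt_of_lt_of_le ?_ g1)
  apply Real.exp_lt_exp.2
  have hp5 : 0 < (Real.log (2 / x₁)) ^ 5 := by positivity
  rw [lt_div_iff₀ hp5]
  have hle5 : (Real.log (2 / x₁)) ^ 5 ≤ L ^ 5 := pow_le_pow_left₀ hL10.le hL1 5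
  have hsq : (C * x₂ * L ^ 3) ^ 2 ≤ x₁ ^ 2 := pow_le_pow_left₀ (by positivity) h3 2
  have hX : 0 < x₂ ^ 2 * L ^ 6 := by positivity
  have hCC : 257 ≤ c * C ^ 2 := by nlinarith
  calc 256 * x₂ ^ 2 * L * (Real.log (2 / x₁)) ^ 5 ≤ 256 * x₂ ^ 2 * L * L ^ 5 :=
        mul_le_mul_of_nonneg_left hle5 (by positivity)
    _ = 256 * (x₂ ^ 2 * L ^ 6) := by ring
    _ < 257 * (x₂ ^ 2 * L ^ 6) := by linarith
    _ ≤ c * C ^ 2 * (x₂ ^ 2 * L ^ 6) := mul_le_mul_of_nonneg_right hCC hX.le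
    _ = c * (C * x₂ * L ^ 3) ^ 2 := by ring
    _ ≤ c * x₁ ^ 2 := mul_le_mul_of_nonneg_left hsq hc.le

/-- the length of a stair -/
theorem stairs {C : ℝ} (hC : 0 < C)
    (h : ∀ θ₁ θ₂ : ℝ, Real.pi - 1 / 8 ≤ θ₁ → θ₁ ≤ θ₂ → θ₂ < Real.pi →
      C * (Real.pi - θ₂) * (Real.log (2 / (Real.pi - θ₂))) ^ 3 ≤ Real.pi - θ₁ →
      cc θ₂ < cc θ₁) (a b : ℝ) (ha : Real.pi - 1 / 8 ≤ a) (hab : a < b) (hb : b ≤ Real.pi)
    (hconst : ∀ θ : ℝ, a ≤ θ → θ < b → cc θ = cc a) :
    b < Real.pi ∧ Real.pi - a ≤ C * (Real.pi - b) * (Real.log (2 / (Real.pi - b))) ^ 3 := by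
  have key : ∀ θ : ℝ, a ≤ θ → θ < b →
      Real.pi - a < C * (Real.pi - θ) * (Real.log (2 / (Real.pi - θ))) ^ 3 := by
    intro θ h1 h2
    by_contra hcon
    have h3 := h a θ ha h1 (by linarith) (not_lt.1 hcon)
    rw [hconst θ h1 h2] at h3
    exact lt_irrefl _ h3
  have hlt : b < Real.pi := by
    by_contra hcon
    have hbpi : b = Real.pi := le_antisymm hb (not_lt.1 hcon)
    -- the right side tends to zero
    have ht : Filter.Tendsto (fun y : ℝ => y * (Real.log (2 / y)) ^ 3)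
        (nhdsWithin 0 (Set.Ioi 0)) (nhds 0) := by
      have h1 : Filter.Tendsto (fun y : ℝ => y * (Real.log (2 / y)) ^ 3)
          (nhdsWithin 0 (Set.Ioi 0)) (nhds 0) := by
        have h2 : Filter.Tendsto (fun u : ℝ => Real.log u ^ 3 / (1 * u + 0)) Filter.atTop
            (nhds 0) := Real.tendsto_pow_log_div_mul_add_atTop 1 0 3 one_ne_zero
        have h3 : Filter.Tendsto (fun y : ℝ => 2 / y) (nhdsWithin 0 (Set.Ioi 0)) Filter.atTop := by
          simp only [div_eq_mul_inv]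
          exact Filter.Tendsto.const_mul_atTop (by norm_num) tendsto_inv_nhdsGT_zero
        have h4 := (h2.comp h3).const_mul 2
        rw [mul_zero] at h4
        refine h4.congr' ?_
        filter_upwards [self_mem_nhdsWithin] with y hy
        have hy0 : (0 : ℝ) < y := hy
        simp only [Function.comp]
        field_simp
        ring
      exact h1
    have hpa : 0 < Real.pi - a := by linarith
    have hev := ht.eventually (gt_mem_nhds (show 0 < (Real.pi - a) / C by positivity))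
    have hev2 : ∀ᶠ y in nhdsWithin (0 : ℝ) (Set.Ioi 0), y < Real.pi - a :=
      (gt_mem_nhds hpa).filter_mono nhdsWithin_le_nhds
    obtain ⟨y, ⟨hy1, hy2⟩, hy3⟩ := ((hev.and hev2).and self_mem_nhdsWithin).exists
    have hy0 : (0 : ℝ) < y := hy3
    have h5 := key (Real.pi - y) (by linarith) (by linarith)
    rw [sub_sub_cancel] at h5
    rw [lt_div_iff₀ hC] at hy1
    linarith
  refine ⟨hlt, ?_⟩
  have hcont : Filter.Tendsto
      (fun θ : ℝ => C * (Real.pi - θ) * (Real.log (2 / (Real.pi - θ))) ^ 3)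
      (nhdsWithin b (Set.Iio b)) (nhds (C * (Real.pi - b) * (Real.log (2 / (Real.pi - b))) ^ 3)) := by
    apply Filter.Tendsto.mono_left _ nhdsWithin_le_nhds
    apply ContinuousAt.tendsto
    have hne : Real.pi - b ≠ 0 := by linarith
    have hne2 : 2 / (Real.pi - b) ≠ 0 := div_ne_zero two_ne_zero hne
    have hdiv : ContinuousAt (fun θ : ℝ => 2 / (Real.pi - θ)) b :=
      ContinuousAt.div (by fun_prop) (by fun_prop) hne
    exact ContinuousAt.mul (by fun_prop) ((hdiv.log hne2).pow 3)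
  refine ge_of_tendsto hcont ?_
  have h6 : ∀ᶠ θ in nhdsWithin b (Set.Iio b), a < θ :=
    (lt_mem_nhds hab).filter_mono nhdsWithin_le_nhds
  filter_upwards [h6, self_mem_nhdsWithin] with θ h7 h8
  exact (key θ h7.le h8).le

end Pool.Agent.Y94.LL
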