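import Mathlib
import Pool.Agent.Y94.LL.Up5

/-!
# The number of values of the sector constant
-/

set_option autoImplicit false

namespace Pool.Agent.Y94.LL

/-- many different values -/
theorem count_values {C : ℝ} (hC : 1 ≤ C)
    (h : ∀ θ₁ θ₂ : ℝ, Real.pi - 1 / 8 ≤ θ₁ → θ₁ ≤ θ₂ → θ₂ < Real.pi →
      C * (Real.pi - θ₂) * (Real.log (2 / (Real.pi - θ₂))) ^ 3 ≤ Real.pi - θ₁ →
      cc θ₂ < cc θ₁) (x : ℝ) (hx0 : 0 < x) (hx : x ≤ 1 / 8) (K : ℕ)
    (hK : 8 * x * (C * (Real.log (2 / x)) ^ 3) ^ K ≤ 1) :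
    ∃ t : ℕ → ℝ, (∀ k ≤ K, Real.pi - 1 / 8 ≤ t k ∧ t k ≤ Real.pi - x) ∧
      ∀ k < K, cc (t (k + 1)) < cc (t k) := by
  have hL : 1 ≤ Real.log (2 / x) := by
    rw [Real.le_log_iff_exp_le (by positivity)]
    have h4 := Real.exp_one_lt_d9
    have h5 : 16 ≤ 2 / x := by rw [le_div_iff₀ hx0]; linarith
    linarith
  set L := Real.log (2 / x) with hLd
  have hL3 : 1 ≤ L ^ 3 := one_le_pow₀ hL
  set R : ℝ := C * L ^ 3 with hR
  have hR1 : 1 ≤ R := by nlinarith
  have hR0 : 0 < R := by linarith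
  refine ⟨fun k => Real.pi - 1 / (8 * R ^ k), ?_, ?_⟩
  · intro k hk
    have h1 : 1 ≤ R ^ k := one_le_pow₀ hR1
    have h2 : R ^ k ≤ R ^ K := pow_le_pow_right₀ hR1 hk
    have h3 : 1 / (8 * R ^ k) ≤ 1 / 8 :=
      one_div_le_one_div_of_le (by norm_num) (by linarith)
    have h4 : x ≤ 1 / (8 * R ^ k) := by
      rw [le_div_iff₀ (by positivity)]
      have h5 := mul_le_mul_of_nonneg_left h2 (show 0 ≤ 8 * x by positivity)
      linarith
    exact ⟨by linarith, by linarith⟩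
  · intro k hk
    have h1 : 1 ≤ R ^ k := one_le_pow₀ hR1
    have hk1 : R ^ (k + 1) ≤ R ^ K := pow_le_pow_right₀ hR1 hk
    have hmono : R ^ k ≤ R ^ (k + 1) := pow_le_pow_right₀ hR1 (Nat.le_succ k)
    have hRk0 : 0 < R ^ k := by positivity
    have hRk1 : 0 < R ^ (k + 1) := by positivity
    set u : ℝ := 1 / (8 * R ^ (k + 1)) with hu
    have hu0 : 0 < u := by positivity
    have h3 : 1 / (8 * R ^ k) ≤ 1 / 8 :=
      one_div_le_one_div_of_le (by norm_num) (by linarith)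
    have hxu : x ≤ u := by
      rw [hu, le_div_iff₀ (by positivity)]
      have h5 := mul_le_mul_of_nonneg_left hk1 (show 0 ≤ 8 * x by positivity)
      linarith
    have huk : u ≤ 1 / (8 * R ^ k) :=
      one_div_le_one_div_of_le (by positivity) (by linarith)
    have hu8 : u ≤ 1 / 8 := huk.trans h3
    have hlu : Real.log (2 / u) ≤ L := by
      apply Real.log_le_log (by positivity)
      exact div_le_div_of_nonneg_left (by norm_num) hx0 hxu
    have hlu0 : 0 ≤ Real.log (2 / u) := by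
      apply Real.log_nonneg
      rw [le_div_iff₀ hu0]
      linarith
    apply h (Real.pi - 1 / (8 * R ^ k)) (Real.pi - u) (by linarith) (by linarith) (by linarith)
    rw [sub_sub_cancel, sub_sub_cancel]
    calc C * u * (Real.log (2 / u)) ^ 3 ≤ C * u * L ^ 3 :=
          mul_le_mul_of_nonneg_left (pow_le_pow_left₀ hlu0 hlu 3) (by positivity)
      _ = u * R := by rw [hR]; ring
      _ = 1 / (8 * R ^ k) := by
          rw [hu, pow_succ]
          field_simp

end Pool.Agent.Y94.LL
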