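import Mathlib
import Pool.Agent.Y94.LL.Fin

/-!
# Lehmer's inequality for polynomials with a zero-free disc centred on the unit circle
-/

set_option autoImplicit false

namespace Pool.Agent.Y94.LL

open Complex Finset Polynomial
open Pool.Agent.W401.SSS

theorem zero_free {P : ℤ[X]} (hP : Adm P) (h0 : ∀ z : ℂ, aeval z P = 0 → z ≠ 0)
    {ζ : ℂ} (hζ : ‖ζ‖ = 1) (hd : (448 : ℝ) ^ 4 ≤ P.natDegree)
    (hout : ∀ z : ℂ, aeval z P = 0 →
      56 * Real.log (P.natDegree + 1) / Real.sqrt P.natDegree ≤ ‖z - ζ‖) :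
    3 / 8 * (1 + Real.log (P.natDegree + 1)) ≤ HH P := by
  set d : ℝ := (P.natDegree : ℝ) with hdd
  have hd0 : 0 < d := lt_of_lt_of_le (by norm_num) hd
  set r : ℝ := Real.sqrt d with hr
  set s : ℝ := Real.sqrt r with hs
  have hr0 : 0 < r := Real.sqrt_pos.2 hd0
  have hs0 : 0 < s := Real.sqrt_pos.2 hr0
  have hrr : r ^ 2 = d := Real.sq_sqrt hd0.le
  have hss : s ^ 2 = r := Real.sq_sqrt hr0.le
  have hs4 : s ^ 4 = d := by rw [← hrr, ← hss]; ring
  have hs448 : 448 ≤ s := by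
    by_contra hcon
    have h1 : s ^ 4 < 448 ^ 4 := pow_lt_pow_left₀ (not_le.1 hcon) hs0.le (by norm_num)
    linarith
  set ℓ : ℝ := Real.log (d + 1) with hℓ
  have hl1 : ℓ ≤ 4 * s := by
    have h1 : d + 1 ≤ (s + 1) ^ 4 := by
      rw [← hs4]
      nlinarith [pow_pos hs0 2, pow_pos hs0 3]
    have h2 := Real.log_le_log (by linarith) h1
    rw [Real.log_pow] at h2
    have h3 := Real.log_le_sub_one_of_pos (show 0 < s + 1 by linarith)
    push_cast at h2
    linarith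
  have hl2 : 2 ≤ ℓ := by
    rw [hℓ, Real.le_log_iff_exp_le (by linarith)]
    have h1 := Real.exp_one_lt_d9
    have h2 : Real.exp 2 = Real.exp 1 * Real.exp 1 := by
      rw [← Real.exp_add]; norm_num
    have h3 : Real.exp 2 ≤ 9 := by
      rw [h2]
      nlinarith [Real.exp_pos 1]
    have h4 : (448 : ℝ) ^ 4 ≥ 9 := by norm_num
    linarith
  have hl0 : 0 < ℓ := by linarith
  set ε : ℝ := 56 * ℓ / r with hε
  have he0 : 0 < ε := by positivity
  have he1 : ε ≤ 1 / 2 := by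
    rw [hε, div_le_iff₀ hr0, ← hss]
    nlinarith
  have heε : ε ^ 2 = 3136 * ℓ ^ 2 / d := by
    rw [hε, div_pow, hrr]
    ring
  set y : ℝ := d / (24 * (1 + ℓ)) with hy
  have hy0 : 0 ≤ y := by positivity
  have hy2 : 2 ≤ y := by
    rw [hy, le_div_iff₀ (by positivity), ← hs4]
    have h1 : 448 * s ^ 3 ≤ s ^ 4 := by
      have : s ^ 4 = s * s ^ 3 := by ring
      rw [this]
      exact mul_le_mul_of_nonneg_right hs448 (by positivity)
    have h2 : s ≤ s ^ 3 := by
      have : (1 : ℝ) ≤ s ^ 2 := one_le_pow₀ (by linarith)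
      nlinarith
    linarith
  have hfl := Nat.floor_le hy0
  have hfl2 := Nat.lt_floor_add_one y
  set n : ℕ := ⌊y⌋₊ with hn
  have hny : y / 2 ≤ (n : ℝ) := by linarith
  have hn0 : (0 : ℝ) < n := by linarith
  have hnd : 24 * (n : ℝ) * (1 + ℓ) ≤ d := by
    have h1 := mul_le_mul_of_nonneg_right hfl (show 0 ≤ 24 * (1 + ℓ) by positivity)
    have h2 : y * (24 * (1 + ℓ)) = d := by rw [hy]; field_simp
    linarith
  have hne : 32 * ℓ ≤ (n : ℝ) * ε ^ 2 := by
    have h1 : 65 * ℓ ^ 2 / (1 + ℓ) ≤ (n : ℝ) * ε ^ 2 := by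
      calc 65 * ℓ ^ 2 / (1 + ℓ) ≤ y / 2 * ε ^ 2 := by
            rw [hy, heε]
            have e : d / (24 * (1 + ℓ)) / 2 * (3136 * ℓ ^ 2 / d) = (3136 / 48) * ℓ ^ 2 / (1 + ℓ) := by
              field_simp
              norm_num
            rw [e]
            apply div_le_div_of_nonneg_right _ (by linarith)
            nlinarith [sq_nonneg ℓ]
        _ ≤ (n : ℝ) * ε ^ 2 := mul_le_mul_of_nonneg_right hny (sq_nonneg _)
    refine le_trans ?_ h1
    rw [le_div_iff₀ (by linarith)]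
    nlinarith
  have hnd1 : (n : ℝ) ≤ d := by nlinarith
  have hexp : 2 * (n : ℝ) * Real.exp (-(n * ε ^ 2 / 16)) ≤ 1 / 4 := by
    have h1 : Real.exp (-(n * ε ^ 2 / 16)) ≤ 1 / (d + 1) ^ 2 := by
      have h2 : Real.exp (-(2 * ℓ)) = 1 / (d + 1) ^ 2 := by
        rw [Real.exp_neg, two_mul, Real.exp_add, hℓ, Real.exp_log (by linarith)]
        field_simp
      rw [← h2]
      apply Real.exp_le_exp.2
      linarith
    calc 2 * (n : ℝ) * Real.exp (-(n * ε ^ 2 / 16)) ≤ 2 * (n : ℝ) * (1 / (d + 1) ^ 2) :=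
          mul_le_mul_of_nonneg_left h1 (by positivity)
      _ ≤ 1 / 4 := by
        rw [mul_one_div, div_le_iff₀ (by positivity)]
        have h4 : (448 : ℝ) ^ 4 ≥ 8 := by norm_num
        nlinarith
  have hmain := dichotomy hP h0 hζ he0 he1 hout (n := n) (by linarith) hexp hnd
  have h5 : 3 / 8 * (1 + ℓ) * (64 * (n : ℝ)) ≤ HH P * (64 * n) := by
    linarith
  exact le_of_mul_le_mul_right h5 (by positivity)

/-- Lehmer's inequality -/
theorem lehmer_disc : ∃ μ : ℝ, 1 < μ ∧ ∀ (P : ℤ[X]) (ζ : ℂ), Irreducible P → 0 < P.natDegree →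
    (∀ z : ℂ, aeval z P = 0 → z ≠ 0 ∧ ∀ m : ℕ, 0 < m → z ^ m ≠ 1) → ‖ζ‖ = 1 →
    (∀ z : ℂ, aeval z P = 0 →
      56 * Real.log (P.natDegree + 1) / Real.sqrt P.natDegree ≤ ‖z - ζ‖) →
    μ ≤ MM P ∧ ((448 : ℝ) ^ 4 ≤ P.natDegree →
      ((P.natDegree : ℝ) + 1) ^ (3 / 8 : ℝ) ≤ MM P) := by
  obtain ⟨c, hc, hlow⟩ := low_all
  have hK : 0 < Real.log (2 * (448 : ℝ) ^ 4) := Real.log_pos (by norm_num)
  refine ⟨Real.exp (min (c / (Real.log (2 * (448 : ℝ) ^ 4)) ^ 3) (3 / 8)), ?_, ?_⟩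
  · exact Real.one_lt_exp_iff.2 (lt_min (by positivity) (by norm_num))
  · intro P ζ h1 h2 h3 hζ hout
    set V : Set ℂ := {z | ‖z - ζ‖ <
      56 * Real.log (P.natDegree + 1) / Real.sqrt P.natDegree} with hV
    obtain ⟨Q, hQ, hM, hd, hr⟩ := exists_adm (V := V) (P := P)
      ⟨h1, h2, fun z hz => ⟨(h3 z hz).1, (h3 z hz).2, fun h => absurd (hout z hz) (not_le.2 h)⟩⟩
    have hMpos := MM_pos h1.ne_zero
    have hlogM : Real.log (MM P) = HH Q := by rw [← hM, log_MM hQ]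
    have hnd : (Q.natDegree : ℝ) = P.natDegree := by rw [hd]
    have hd1 : (1 : ℝ) ≤ P.natDegree := by exact_mod_cast h2
    have hbig : (448 : ℝ) ^ 4 ≤ P.natDegree → 3 / 8 * (1 + Real.log (P.natDegree + 1)) ≤ HH Q := by
      intro h4
      have h5 := zero_free hQ (fun z hz => (hr z hz).1) hζ (by rw [hnd]; exact h4) (by
        intro z hz
        rw [hnd]
        exact not_lt.1 (hr z hz).2.2)
      rw [hnd] at h5
      exact h5
    have hl0 : 0 ≤ Real.log ((P.natDegree : ℝ) + 1) := Real.log_nonneg (by linarith)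
    constructor
    · rw [← Real.exp_log hMpos, hlogM]
      apply Real.exp_le_exp.2
      by_cases h4 : (448 : ℝ) ^ 4 ≤ P.natDegree
      · refine (min_le_right _ _).trans ?_
        have := hbig h4
        linarith
      · refine (min_le_left _ _).trans ?_
        have h5 := hlow Q hQ (fun z hz => ⟨(hr z hz).1, (hr z hz).2.1⟩)
        refine le_trans ?_ h5
        rw [hnd]
        have h6 : 0 < Real.log (2 * (P.natDegree : ℝ)) := Real.log_pos (by linarith)
        apply div_le_div_of_nonneg_left hc.le (pow_pos h6 3)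
        apply pow_le_pow_left₀ h6.le
        exact Real.log_le_log (by linarith) (by linarith [not_le.1 h4])
    · intro h4
      rw [← Real.exp_log hMpos, hlogM, Real.rpow_def_of_pos (by linarith)]
      apply Real.exp_le_exp.2
      have := hbig h4
      linarith

end Pool.Agent.Y94.LL
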